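import Pool.Agent.Helper59.FG.ExtS

/-!
# Finite dimensionality of `Ext`
-/

set_option linter.unusedSectionVars false
set_option autoImplicit false

open CategoryTheory CategoryTheory.Abelian CategoryTheory.Limits
open scoped ModuleCat

namespace Pool.Agent.Helper59.FG

universe u

section

variable (k : Type u) [Field k] {A : Type u} [Ring A] [Algebra k A] [Module.Finite k A]

theorem finite_hom (M N : ModuleCat.{u} A) [Module.Finite A M] [Module.Finite A N] :
    Module.Finite k (M ⟶ N) := by
  have h1 : Module.Finite k M := Module.Finite.trans A M
  have h2 : Module.Finite k N := Module.Finite.trans A N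
  let L : (M ⟶ N) →ₗ[k] (M →ₗ[k] N) :=
    { toFun := fun f => f.hom.restrictScalars k
      map_add' := fun _ _ => rfl
      map_smul' := fun _ _ => rfl }
  refine Module.Finite.of_injective L fun f g h => ?_
  ext x
  exact congr($h x)

theorem finite_ext (M N : ModuleCat.{u} A) [Module.Finite A M] [Module.Finite A N] (n : ℕ) :
    Module.Finite k (Ext M N n) := by
  have hA : IsNoetherianRing A := isNoetherian_of_tower k (inferInstance : IsNoetherian k A)
  induction n generalizing M with
  | zero =>
    have := finite_hom k M N
    exact Module.Finite.equiv (Ext.linearEquiv₀ (R := k)).symm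
  | succ n ih =>
    obtain ⟨m, f, surjf⟩ := Module.Finite.exists_fin' A M
    have exac := LinearMap.shortExact_shortComplexKer surjf
    have hfin : Module.Finite A (LinearMap.shortComplexKer f).X₁ :=
      inferInstanceAs (Module.Finite A (LinearMap.ker f))
    have hproj : Projective (LinearMap.shortComplexKer f).X₂ := by
      have : Module.Projective A (Fin m → A) := inferInstance
      exact (IsProjective.iff_projective (Fin m → A)).1 this
    have := ih (LinearMap.shortComplexKer f).X₁
    exact Module.Finite.of_surjective (exac.extClass.precompOfLinear k N (add_comm 1 n))
      (precomp_extClass_surjective_of_projective_X₂ N exac n)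

end

end Pool.Agent.Helper59.FG
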