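import Mathlib

/-!
# Elements of `Ext` which act surjectively
-/

set_option linter.unusedSectionVars false
set_option autoImplicit false

open CategoryTheory CategoryTheory.Abelian CategoryTheory.Limits

namespace Pool.Agent.Helper59.FG

universe w v u

section

variable {C : Type u} [Category.{v} C] [Abelian C] [HasExt.{w} C]

/-- Multiplication by `x` on `Ext Y Z m` is surjective for all `m ≥ m0`. -/
def SurjFrom (m0 : ℕ) {X Y : C} {a : ℕ} (x : Ext X Y a) : Prop :=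
  ∀ (Z : C) (m n : ℕ) (h : a + m = n), m0 ≤ m →
    Function.Surjective (fun z : Ext Y Z m => x.comp z h)

theorem SurjFrom.mono {m0 m1 : ℕ} {X Y : C} {a : ℕ} {x : Ext X Y a} (hx : SurjFrom m0 x)
    (h : m0 ≤ m1) : SurjFrom m1 x :=
  fun Z m n h' h1 => hx Z m n h' (h.trans h1)

theorem surjFrom_extClass {S : ShortComplex C} (hS : S.ShortExact) (h2 : Projective S.X₂) :
    SurjFrom 0 hS.extClass := by
  intro Z m n h _ z
  obtain ⟨n', rfl⟩ : ∃ n', n = n' + 1 := ⟨m, by omega⟩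
  obtain ⟨y, hy⟩ := Ext.contravariant_sequence_exact₃ hS Z z (Ext.eq_zero_of_projective _) h
  exact ⟨y, hy⟩

theorem SurjFrom.comp {m0 : ℕ} {X Y Z : C} {a b c : ℕ} {x : Ext X Y a} {y : Ext Y Z b}
    (h : a + b = c) (hx : SurjFrom m0 x) (hy : SurjFrom m0 y) : SurjFrom m0 (x.comp y h) := by
  intro W m n hn hm z
  obtain ⟨z1, hz1⟩ := hx W (b + m) n (by omega) (by omega) z
  obtain ⟨z2, hz2⟩ := hy W m (b + m) rfl hm z1
  refine ⟨z2, ?_⟩
  change (x.comp y h).comp z2 hn = z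
  rw [Ext.comp_assoc x y z2 h rfl (by omega)]
  exact (congrArg (fun t => x.comp t (show a + (b + m) = n by omega)) hz2).trans hz1

theorem surjFrom_mk₀ {Y Y' Q : C} (u : Y ⟶ Y') (v : Y' ⟶ Y) (p : Y ⟶ Q) (q : Q ⟶ Y)
    (hQ : Projective Q) (h : u ≫ v = 𝟙 Y + p ≫ q) : SurjFrom 1 (Ext.mk₀ u) := by
  intro Z m n hn hm z
  obtain ⟨n', rfl⟩ : ∃ n', n = n' + 1 := ⟨n - 1, by omega⟩
  obtain rfl : m = n' + 1 := by omega
  refine ⟨(Ext.mk₀ v).comp z (zero_add _), ?_⟩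
  change (Ext.mk₀ u).comp ((Ext.mk₀ v).comp z (zero_add _)) hn = z
  rw [Ext.mk₀_comp_mk₀_assoc, h, Ext.mk₀_add, Ext.add_comp, Ext.mk₀_id_comp,
    ← Ext.mk₀_comp_mk₀_assoc, Ext.eq_zero_of_projective ((Ext.mk₀ q).comp z (zero_add _)),
    Ext.comp_zero, add_zero]

theorem surjFrom_iso {Y Y' : C} (e : Y ≅ Y') : SurjFrom 0 (Ext.mk₀ e.hom) := by
  intro Z m n hn _ z
  obtain rfl : m = n := by omega
  refine ⟨(Ext.mk₀ e.inv).comp z (zero_add _), ?_⟩
  change (Ext.mk₀ e.hom).comp ((Ext.mk₀ e.inv).comp z (zero_add _)) hn = z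
  rw [Ext.mk₀_comp_mk₀_assoc, e.hom_inv_id, Ext.mk₀_id_comp]

/-- The class of the beginning of a projective resolution. -/
theorem exists_delta (K P : ℕ → C) (i : ∀ n, K (n + 1) ⟶ P n) (f : ∀ n, P n ⟶ K n)
    (w : ∀ n, i n ≫ f n = 0) (hS : ∀ n, (ShortComplex.mk (i n) (f n) (w n)).ShortExact)
    (hP : ∀ n, Projective (P n)) (a : ℕ) :
    ∃ δ : Ext (K 0) (K a) a, SurjFrom 0 δ ∧ ∀ (T : C ⥤ C) [T.Additive] [PreservesFiniteLimits T]
      [PreservesFiniteColimits T], (∀ n, Projective (T.obj (P n))) →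
        SurjFrom 0 (δ.mapExactFunctor T) := by
  induction a with
  | zero =>
    refine ⟨Ext.mk₀ (𝟙 _), surjFrom_iso (Iso.refl _), fun T _ _ _ _ => ?_⟩
    rw [Ext.mapExactFunctor_mk₀]
    have := surjFrom_iso (T.mapIso (Iso.refl (K 0)))
    exact this
  | succ a ih =>
    obtain ⟨δ, h1, h2⟩ := ih
    refine ⟨δ.comp (hS a).extClass rfl, h1.comp rfl (surjFrom_extClass (hS a) (hP a)),
      fun T _ _ _ hT => ?_⟩
    rw [Ext.mapExactFunctor_comp, Ext.mapExactFunctor_extClass]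
    exact (h2 T hT).comp rfl (surjFrom_extClass _ (hT a))

/-- A stably periodic resolution gives a class which acts surjectively in positive degrees. -/
theorem exists_x (K P : ℕ → C) (i : ∀ n, K (n + 1) ⟶ P n) (f : ∀ n, P n ⟶ K n)
    (w : ∀ n, i n ≫ f n = 0) (hS : ∀ n, (ShortComplex.mk (i n) (f n) (w n)).ShortExact)
    (hP : ∀ n, Projective (P n)) (a : ℕ) {X Q : C} (u : K a ⟶ X) (v : X ⟶ K a) (p : K a ⟶ Q)
    (q : Q ⟶ K a) (hQ : Projective Q) (h : u ≫ v = 𝟙 _ + p ≫ q) :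
    ∃ x : Ext (K 0) X a, SurjFrom 1 x ∧ ∀ (T : C ⥤ C) [T.Additive] [PreservesFiniteLimits T]
      [PreservesFiniteColimits T], (∀ n, Projective (T.obj (P n))) → Projective (T.obj Q) →
        SurjFrom 1 (x.mapExactFunctor T) := by
  obtain ⟨δ, h1, h2⟩ := exists_delta K P i f w hS hP a
  refine ⟨δ.comp (Ext.mk₀ u) (add_zero a), (h1.mono (by omega)).comp _ (surjFrom_mk₀ u v p q hQ h),
    fun T _ _ _ hT hTQ => ?_⟩
  rw [Ext.mapExactFunctor_comp, Ext.mapExactFunctor_mk₀]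
  refine ((h2 T hT).mono (by omega)).comp _ (surjFrom_mk₀ (T.map u) (T.map v) (T.map p)
    (T.map q) hTQ ?_)
  rw [← T.map_comp, h, T.map_add, T.map_id, T.map_comp]

end

end Pool.Agent.Helper59.FG
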