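import Pool.Agent.Helper59.FG.CohAct
import Pool.Agent.Helper59.FG.ExtS
import Pool.Agent.Helper59.FG.ExtF

/-!
# Finite generation
-/

set_option linter.unusedSectionVars false
set_option autoImplicit false

open CategoryTheory CategoryTheory.Abelian CategoryTheory.Limits DirectSum
open scoped ModuleCat TensorProduct

namespace Pool.Agent.Helper59.FG

universe w v u t

section

variable {C : Type u} [Category.{v} C] [Abelian C] [HasExt.{w} C]
variable {k : Type t} [Field k] [Linear k C]

theorem of_comp (X : C) {a b c : ℕ} (x : Ext X X a) (y : Ext X X b) (h : a + b = c) :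
    DirectSum.of (EndExt X) c (x.comp y h) =
      DirectSum.of (EndExt X) a x * DirectSum.of (EndExt X) b y := by
  have h1 := DirectSum.of_mul_of (A := EndExt X) (i := a) (j := b) x y
  have h2 := DirectSum.of_eq_of_gradedMonoid_eq (A := EndExt X) (comp_sigma x y h)
  exact h2.symm.trans h1.symm

theorem finiteType_of_surj (X : C) (hfin : ∀ n, Module.Finite k (Ext X X n)) (a : ℕ)
    (ha : 1 ≤ a) (x : Ext X X a) (hx : SurjFrom 1 x) :
    Algebra.FiniteType k (⨁ n, EndExt X n) := by
  classical
  have h1 : ∀ n, ∃ t : Set (EndExt X n), t.Finite ∧ Submodule.span k t = ⊤ := by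
    intro n
    have h : Module.Finite k (EndExt X n) := hfin n
    exact Submodule.fg_def.1 h.fg_top
  choose t ht1 ht2 using h1
  set G : Set (⨁ n, EndExt X n) := {DirectSum.of (EndExt X) a x} ∪
    ⋃ n ∈ Set.Iic a, (DirectSum.of (EndExt X) n) '' (t n) with hG
  have hGfin : G.Finite := (Set.finite_singleton _).union
    (Set.Finite.biUnion (Set.finite_Iic a) fun n _ => (ht1 n).image _)
  have hxG : DirectSum.of (EndExt X) a x ∈ Algebra.adjoin k G :=
    Algebra.subset_adjoin (Or.inl rfl)
  have key : ∀ n, ∀ y : EndExt X n, DirectSum.of (EndExt X) n y ∈ Algebra.adjoin k G := by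
    intro n
    induction n using Nat.strong_induction_on with
    | _ n ih =>
      intro y
      rcases Nat.lt_or_ge a n with hn | hn
      · obtain ⟨z, hz⟩ := hx X (n - a) n (by omega) (by omega) y
        have hz' : x.comp z (by omega) = y := hz
        rw [← hz', of_comp X x z (by omega)]
        exact mul_mem hxG (ih (n - a) (by omega) z)
      · have h2 : Submodule.span k (t n) ≤
            (Subalgebra.toSubmodule (Algebra.adjoin k G)).comap
              (DirectSum.lof k ℕ (EndExt X) n) := by
          rw [Submodule.span_le]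
          intro y hy
          refine Algebra.subset_adjoin (Or.inr ?_)
          rw [Set.mem_iUnion₂]
          exact ⟨n, hn, y, hy, rfl⟩
        rw [ht2] at h2
        exact h2 (Submodule.mem_top (x := y))
  refine ⟨Subalgebra.fg_def.2 ⟨G, hGfin, ?_⟩⟩
  rw [eq_top_iff]
  intro w _
  induction w using DirectSum.induction_on with
  | zero => exact zero_mem _
  | of n y => exact key n y
  | add y z hy hz => exact add_mem (hy trivial) (hz trivial)

end

section

variable (k : Type u) [Field k] {A : Type u} [Ring A] [Bialgebra k A]

theorem of_act (M N : ModuleCat.{u} A) {a b c : ℕ} (x : Ext (trivObj k A) (trivObj k A) a)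
    (y : Ext M N b) (h : a + b = c) :
    DirectSum.of (ActExt M N) c ((rst k M x).comp y h) =
      DirectSum.of (EndExt (trivObj k A)) a x • DirectSum.of (ActExt M N) b y := by
  have h1 := DirectSum.Gmodule.of_smul_of (A := EndExt (trivObj k A)) (M := ActExt M N)
    (i := a) (j := b) x y
  have h2 := DirectSum.of_eq_of_gradedMonoid_eq (A := ActExt M N) (comp_sigma (rst k M x) y h)
  exact h2.symm.trans h1.symm

theorem rst_smul_one_comp (M N : ModuleCat.{u} A) {n : ℕ} (c : k) (y : Ext M N n) :
    (rst k M (c • Ext.mk₀ (𝟙 (trivObj k A)))).comp y (zero_add n) = c • y := by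
  rw [rst_smul, rst_one, Ext.smul_comp, Ext.mk₀_id_comp]

theorem of_smul_act (M N : ModuleCat.{u} A) {n : ℕ} (c : k) (y : Ext M N n) :
    DirectSum.of (ActExt M N) n (c • y) =
      DirectSum.of (EndExt (trivObj k A)) 0 (c • Ext.mk₀ (𝟙 (trivObj k A))) •
        DirectSum.of (ActExt M N) n y := by
  have h5 := of_act k M N (c • Ext.mk₀ (𝟙 (trivObj k A))) y (zero_add n)
  rw [rst_smul_one_comp k M N] at h5
  exact h5

noncomputable instance (M N : ModuleCat.{u} A) (n : ℕ) : Module k (ActExt M N n) :=
  inferInstanceAs (Module k (Ext M N n))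

theorem finite_of_surj (M N : ModuleCat.{u} A) (hfin : ∀ n, Module.Finite k (Ext M N n)) (a : ℕ)
    (ha : 1 ≤ a) (x : Ext (trivObj k A) (trivObj k A) a) (hx : SurjFrom 1 (rst k M x)) :
    Module.Finite (⨁ n, EndExt (trivObj k A) n) (⨁ n, ActExt M N n) := by
  classical
  have h1 : ∀ n, ∃ t : Set (ActExt M N n), t.Finite ∧ Submodule.span k t = ⊤ := by
    intro n
    have h : Module.Finite k (ActExt M N n) := hfin n
    exact Submodule.fg_def.1 h.fg_top
  choose t ht1 ht2 using h1
  set G : Set (⨁ n, ActExt M N n) :=
    ⋃ n ∈ Set.Iic a, (DirectSum.of (ActExt M N) n) '' (t n) with hG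
  have hGfin : G.Finite := Set.Finite.biUnion (Set.finite_Iic a) fun n _ => (ht1 n).image _
  have key : ∀ n, ∀ y : ActExt M N n, DirectSum.of (ActExt M N) n y ∈
      Submodule.span (⨁ n, EndExt (trivObj k A) n) G := by
    intro n
    induction n using Nat.strong_induction_on with
    | _ n ih =>
      intro y
      rcases Nat.lt_or_ge a n with hn | hn
      · obtain ⟨z, hz⟩ := hx N (n - a) n (by omega) (by omega) y
        have hz' : (rst k M x).comp z (by omega) = y := hz
        rw [← hz', of_act k M N x z (by omega)]
        exact Submodule.smul_mem _ _ (ih (n - a) (by omega) z)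
      · have h3 : y ∈ Submodule.span k (t n) := by
          rw [ht2]
          exact Submodule.mem_top
        induction h3 using Submodule.span_induction with
        | mem y hy =>
          refine Submodule.subset_span ?_
          rw [hG, Set.mem_iUnion₂]
          exact ⟨n, hn, y, hy, rfl⟩
        | zero =>
          rw [map_zero]
          exact zero_mem _
        | add y z _ _ hy hz =>
          rw [map_add]
          exact add_mem hy hz
        | smul c y _ hy =>
          have h6 : DirectSum.of (ActExt M N) n (c • y) = _ := of_smul_act k M N c y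
          rw [h6]
          exact Submodule.smul_mem _ _ hy
  refine ⟨Submodule.fg_def.2 ⟨G, hGfin, ?_⟩⟩
  rw [eq_top_iff]
  intro w _
  induction w using DirectSum.induction_on with
  | zero => exact zero_mem _
  | of n y => exact key n y
  | add y z hy hz => exact add_mem (hy trivial) (hz trivial)

end

end Pool.Agent.Helper59.FG
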