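import Mathlib

/-!
# Cohomology of Hopf algebras: definitions

The cohomology algebra of a bialgebra `A` over a field `k` and its action on `Ext M N`.
-/

set_option linter.unusedSectionVars false
set_option autoImplicit false

open CategoryTheory CategoryTheory.Abelian CategoryTheory.Limits DirectSum
open scoped ModuleCat TensorProduct

namespace Pool.Agent.Helper59.FG

universe w v u t

/-! ### The Yoneda algebra of an object -/

section

variable {C : Type u} [Category.{v} C] [Abelian C] [HasExt.{w} C]

/-- The components `Ext X X n` of the Yoneda algebra of `X`. -/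
abbrev EndExt (X : C) (n : ℕ) : Type w := Ext X X n

theorem comp_sigma {X Y Z : C} {a b c : ℕ} (x : Ext X Y a) (y : Ext Y Z b) (h : a + b = c) :
    (⟨a + b, x.comp y rfl⟩ : Σ n, Ext X Z n) = ⟨c, x.comp y h⟩ := by
  subst h
  rfl

theorem one_comp_sigma {X Y : C} {n : ℕ} (x : Ext X Y n) :
    (⟨0 + n, (Ext.mk₀ (𝟙 X)).comp x rfl⟩ : Σ n, Ext X Y n) = ⟨n, x⟩ := by
  rw [comp_sigma _ _ (zero_add n), Ext.mk₀_id_comp]

theorem comp_one_sigma {X Y : C} {n : ℕ} (x : Ext X Y n) :
    (⟨n + 0, x.comp (Ext.mk₀ (𝟙 Y)) rfl⟩ : Σ n, Ext X Y n) = ⟨n, x⟩ := by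
  rw [comp_sigma _ _ (add_zero n), Ext.comp_mk₀_id]

theorem comp_assoc_sigma {X Y Z W : C} {a b c : ℕ} (x : Ext X Y a) (y : Ext Y Z b)
    (z : Ext Z W c) : (⟨a + b + c, (x.comp y rfl).comp z rfl⟩ : Σ n, Ext X W n) =
      ⟨a + (b + c), x.comp (y.comp z rfl) rfl⟩ := by
  rw [Ext.comp_assoc x y z rfl rfl rfl]
  exact (comp_sigma x (y.comp z rfl) (by omega)).symm

noncomputable instance instOne (X : C) : GradedMonoid.GOne (EndExt X) where
  one := Ext.mk₀ (𝟙 X)

/-- The Yoneda product. -/
noncomputable instance instMul (X : C) : GradedMonoid.GMul (EndExt X) where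
  mul x y := Ext.comp x y rfl

noncomputable instance instMonoid (X : C) : GradedMonoid.GMonoid (EndExt X) where
  one_mul x := one_comp_sigma x.2
  mul_one x := comp_one_sigma x.2
  mul_assoc x y z := comp_assoc_sigma x.2 y.2 z.2

noncomputable instance instRing (X : C) : DirectSum.GRing (EndExt X) where
  mul_zero {i j} a := Ext.comp_zero (X := X) (Y := X) (n := i) a X j (i + j) rfl
  zero_mul {i j} b := Ext.zero_comp (X := X) (Y := X) (n := i) b (i + j) rfl
  mul_add a b c := Ext.comp_add a b c rfl
  add_mul a b c := Ext.add_comp a b c rfl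
  natCast n := n • Ext.mk₀ (𝟙 X)
  natCast_zero := zero_nsmul _
  natCast_succ n := succ_nsmul _ n
  intCast n := n • Ext.mk₀ (𝟙 X)
  intCast_ofNat n := natCast_zsmul _ n
  intCast_negSucc_ofNat n := negSucc_zsmul _ n

section Linear

variable {R : Type t} [CommRing R] [Linear R C]

theorem smul_one_comp {X Y : C} {n : ℕ} (r : R) (x : Ext X Y n) :
    (⟨0 + n, (r • Ext.mk₀ (𝟙 X)).comp x rfl⟩ : Σ n, Ext X Y n) = ⟨n, r • x⟩ := by
  rw [comp_sigma _ _ (zero_add n), Ext.smul_comp, Ext.mk₀_id_comp]

theorem comp_smul_one {X Y : C} {n : ℕ} (r : R) (x : Ext X Y n) :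
    (⟨n + 0, x.comp (r • Ext.mk₀ (𝟙 Y)) rfl⟩ : Σ n, Ext X Y n) = ⟨n, r • x⟩ := by
  rw [comp_sigma _ _ (add_zero n), Ext.comp_smul, Ext.comp_mk₀_id]

/-- The scalars in degree zero. -/
noncomputable def scal (R : Type t) [CommRing R] [Linear R C] (X : C) : R →+ EndExt X 0 where
  toFun r := r • Ext.mk₀ (𝟙 X)
  map_zero' := zero_smul _ _
  map_add' r s := add_smul r s _

theorem scal_apply (r : R) (X : C) : scal R X r = r • Ext.mk₀ (𝟙 X) := rfl

noncomputable instance instAlgebra (X : C) : DirectSum.GAlgebra R (EndExt X) where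
  toFun := scal R X
  map_one := one_smul R (Ext.mk₀ (𝟙 X) : Ext X X 0)
  map_mul r s := by
    refine Eq.trans ?_ (smul_one_comp r (s • (Ext.mk₀ (𝟙 X) : Ext X X 0))).symm
    rw [smul_smul]
    rfl
  commutes r x := (smul_one_comp r x.2).trans (comp_smul_one r x.2).symm
  smul_def r x := (smul_one_comp r x.2).symm

end Linear

end

/-! ### Tensor products of modules over a bialgebra -/

section

variable (k : Type u) [Field k] {A : Type u} [Ring A] [Bialgebra k A]

variable (A) in
/-- The trivial module: `k`, on which `A` acts through the counit. -/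
noncomputable def trivObj : ModuleCat.{u} A :=
  @ModuleCat.of A _ k _ (Module.compHom k (Bialgebra.counitAlgHom k A).toRingHom)

/-- The action of `A` on `X ⊗ Y` through the comultiplication. -/
noncomputable def tact (X Y : ModuleCat.{u} A) : A →ₐ[k] Module.End k (X ⊗[k] Y) :=
  ((Module.endTensorEndAlgHom (R := k) (S := k) (A := k) (M := X) (N := Y)).comp
    (Algebra.TensorProduct.map (Algebra.lsmul k k X) (Algebra.lsmul k k Y))).comp
      (Bialgebra.comulAlgHom k A)

/-- The tensor product over `k` of two `A`-modules (type synonym which carries the action of `A`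
through the comultiplication). -/
def TT (X Y : ModuleCat.{u} A) : Type u := X ⊗[k] Y

noncomputable instance instGrpTT (X Y : ModuleCat.{u} A) : AddCommGroup (TT k X Y) :=
  (inferInstance : AddCommGroup (X ⊗[k] Y))

noncomputable instance instModTT (X Y : ModuleCat.{u} A) : Module A (TT k X Y) :=
  Module.compHom (X ⊗[k] Y) (tact k X Y).toRingHom

theorem tact_tmul (X Y : ModuleCat.{u} A) (t : A ⊗[k] A) (x : X) (y : Y) :
    (Module.endTensorEndAlgHom (R := k) (S := k) (A := k) (M := X) (N := Y))
      (Algebra.TensorProduct.map (Algebra.lsmul k k X) (Algebra.lsmul k k Y) t) (x ⊗ₜ[k] y) =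
      TensorProduct.map ((LinearMap.toSpanSingleton A X x).restrictScalars k)
        ((LinearMap.toSpanSingleton A Y y).restrictScalars k) t := by
  induction t using TensorProduct.induction_on with
  | zero => simp
  | add s t hs ht => rw [map_add, map_add, LinearMap.add_apply, hs, ht, map_add]
  | tmul s t => simp [Module.endTensorEndAlgHom_apply]

theorem tensMap_smul {X Y : ModuleCat.{u} A} (f : X ⟶ Y) (M : ModuleCat.{u} A) (a : A)
    (z : X ⊗[k] M) :
    TensorProduct.map (f.hom.restrictScalars k) (LinearMap.id : M →ₗ[k] M) (tact k X M a z) =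
      tact k Y M a (TensorProduct.map (f.hom.restrictScalars k) LinearMap.id z) := by
  induction z using TensorProduct.induction_on with
  | zero => simp
  | add x y hx hy => simp only [map_add, hx, hy]
  | tmul x m =>
    change TensorProduct.map _ _ ((Module.endTensorEndAlgHom (R := k) (S := k) (A := k) (M := X)
      (N := M)) (Algebra.TensorProduct.map _ _ (Coalgebra.comul a)) (x ⊗ₜ[k] m)) =
      (Module.endTensorEndAlgHom (R := k) (S := k) (A := k) (M := Y)
      (N := M)) (Algebra.TensorProduct.map _ _ (Coalgebra.comul a))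
        ((f.hom x) ⊗ₜ[k] m)
    rw [tact_tmul, tact_tmul]
    have h2 : (LinearMap.toSpanSingleton A Y (f.hom x)).restrictScalars k =
        (f.hom.restrictScalars k) ∘ₗ (LinearMap.toSpanSingleton A X x).restrictScalars k := by
      ext b
      simp
    rw [h2]
    generalize Coalgebra.comul (R := k) a = t
    induction t using TensorProduct.induction_on with
    | zero => simp
    | add s t hs ht => simp only [map_add, hs, ht]
    | tmul s t => simp

/-- The map `f ⊗ M`. -/
noncomputable def tmap {X Y : ModuleCat.{u} A} (f : X ⟶ Y) (M : ModuleCat.{u} A) :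
    TT k X M →ₗ[A] TT k Y M where
  toFun z := TensorProduct.map (f.hom.restrictScalars k) LinearMap.id (show X ⊗[k] M from z)
  map_add' x y := map_add (TensorProduct.map (f.hom.restrictScalars k) LinearMap.id) x y
  map_smul' a z := tensMap_smul k f M a z

theorem tmap_id (X M : ModuleCat.{u} A) : tmap k (𝟙 X) M = LinearMap.id := by
  refine LinearMap.ext fun z => ?_
  have h : TensorProduct.map ((𝟙 X : X ⟶ X).hom.restrictScalars k) (LinearMap.id : M →ₗ[k] M) =
      LinearMap.id := TensorProduct.map_id
  exact congr($h (show X ⊗[k] M from z))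

theorem tmap_comp {X Y Z : ModuleCat.{u} A} (f : X ⟶ Y) (g : Y ⟶ Z) (M : ModuleCat.{u} A) :
    tmap k (f ≫ g) M = tmap k g M ∘ₗ tmap k f M := by
  refine LinearMap.ext fun z => ?_
  have h := TensorProduct.map_comp (g.hom.restrictScalars k) (LinearMap.id : M →ₗ[k] M)
      (f.hom.restrictScalars k) (LinearMap.id : M →ₗ[k] M)
  exact congr($h (show X ⊗[k] M from z))

/-- The functor `- ⊗ M`. -/
noncomputable def tensFunctor (M : ModuleCat.{u} A) : ModuleCat.{u} A ⥤ ModuleCat.{u} A where
  obj X := ModuleCat.of A (TT k X M)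
  map f := ModuleCat.ofHom (tmap k f M)
  map_id X := congrArg ModuleCat.ofHom (tmap_id k X M)
  map_comp f g := congrArg ModuleCat.ofHom (tmap_comp k f g M)

end

end Pool.Agent.Helper59.FG
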