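import Pool.Agent.Helper59.FG.Mods
import Pool.Agent.Helper59.FG.CohDefs

/-!
# Cohomology of Hopf algebras: the functor `- ⊗ M` is exact, and its action on `Ext`
-/

set_option linter.unusedSectionVars false
set_option autoImplicit false

open CategoryTheory CategoryTheory.Abelian CategoryTheory.Limits DirectSum
open scoped ModuleCat TensorProduct

namespace Pool.Agent.Helper59.FG

universe u

section

variable (k : Type u) [Field k] {A : Type u} [Ring A] [Bialgebra k A]

theorem tmap_add {X Y : ModuleCat.{u} A} (f g : X ⟶ Y) (M : ModuleCat.{u} A) :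
    tmap k (f + g) M = tmap k f M + tmap k g M := by
  refine LinearMap.ext fun z => ?_
  have h := TensorProduct.map_add_left (f.hom.restrictScalars k) (g.hom.restrictScalars k)
    (LinearMap.id : M →ₗ[k] M)
  exact congr($h (show X ⊗[k] M from z))

theorem tmap_smul {X Y : ModuleCat.{u} A} (c : k) (f : X ⟶ Y) (M : ModuleCat.{u} A)
    (z : TT k X M) : tmap k (c • f) M z = algebraMap k A c • tmap k f M z := by
  have h := TensorProduct.map_smul_left c (f.hom.restrictScalars k) (LinearMap.id : M →ₗ[k] M)
  have h2 : tmap k (c • f) M z = (c • (show Y ⊗[k] M from tmap k f M z) : Y ⊗[k] M) :=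
    congr($h (show X ⊗[k] M from z))
  rw [h2]
  have h3 : tact k Y M (algebraMap k A c) = algebraMap k _ c := (tact k Y M).commutes c
  exact congr($h3.symm (show Y ⊗[k] M from tmap k f M z))

instance instAdd (M : ModuleCat.{u} A) : (tensFunctor k M).Additive where
  map_add {_ _ f g} := congrArg ModuleCat.ofHom (tmap_add k f g M)

instance instLin (M : ModuleCat.{u} A) : (tensFunctor k M).Linear k where
  map_smul f c := ModuleCat.hom_ext (LinearMap.ext (tmap_smul k c f M))

theorem tmap_inj {X Y : ModuleCat.{u} A} (f : X ⟶ Y) (M : ModuleCat.{u} A)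
    (h : Function.Injective f.hom) : Function.Injective (tmap k f M) :=
  Ten.map_injective (k := k) f.hom (LinearMap.id : M →ₗ[A] M) h Function.injective_id

theorem tmap_surj {X Y : ModuleCat.{u} A} (f : X ⟶ Y) (M : ModuleCat.{u} A)
    (h : Function.Surjective f.hom) : Function.Surjective (tmap k f M) :=
  Ten.map_surjective (k := k) f.hom (LinearMap.id : M →ₗ[A] M) h Function.surjective_id

theorem tmap_exact {X Y Z : ModuleCat.{u} A} (f : X ⟶ Y) (g : Y ⟶ Z) (M : ModuleCat.{u} A)
    (h : Function.Exact f.hom g.hom) (hg : Function.Surjective g.hom) :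
    Function.Exact (tmap k f M) (tmap k g M) :=
  Ten.exact_left (k := k) (Y := M) f.hom g.hom h hg

theorem tensFunctor_shortExact (M : ModuleCat.{u} A) (S : ShortComplex (ModuleCat.{u} A))
    (hS : S.ShortExact) : (S.map (tensFunctor k M)).ShortExact := by
  have h1 : Function.Exact S.f.hom S.g.hom :=
    (ShortComplex.ShortExact.moduleCat_exact_iff_function_exact S).1 hS.exact
  have h2 : Function.Injective S.f.hom := hS.moduleCat_injective_f
  have h3 : Function.Surjective S.g.hom := hS.moduleCat_surjective_g
  exact ModuleCat.shortComplex_shortExact _ (tmap_exact k S.f S.g M h1 h3)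
    (tmap_inj k S.f M h2) (tmap_surj k S.g M h3)

instance instLim (M : ModuleCat.{u} A) : PreservesFiniteLimits (tensFunctor k M) := by
  have := ((Functor.exact_tfae (tensFunctor k M)).out 0 3).1 (tensFunctor_shortExact k M)
  exact this.1

instance instColim (M : ModuleCat.{u} A) : PreservesFiniteColimits (tensFunctor k M) := by
  have := ((Functor.exact_tfae (tensFunctor k M)).out 0 3).1 (tensFunctor_shortExact k M)
  exact this.2

variable (A) in
/-- The element `1` of the trivial module. -/
noncomputable def oneT : trivObj k A := (1 : k)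

theorem oneT_smul (b : A) :
    b • oneT k A = (Coalgebra.counit (R := k) b) • oneT k A := by
  have h : ∀ c : A, c • oneT k A = (Bialgebra.counitAlgHom k A c * 1 : k) := fun c => rfl
  have h2 : ∀ c : k, c • oneT k A = algebraMap k A c • oneT k A := fun c => rfl
  rw [h2, h, h, AlgHom.commutes]
  rfl

theorem unit_smul (M : ModuleCat.{u} A) (a : A) (m : M) :
    oneT k A ⊗ₜ[k] (a • m) = tact k (trivObj k A) M a (oneT k A ⊗ₜ[k] m) := by
  change _ = (Module.endTensorEndAlgHom (R := k) (S := k) (A := k) (M := trivObj k A)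
      (N := M)) (Algebra.TensorProduct.map _ _ (Coalgebra.comul a)) (oneT k A ⊗ₜ[k] m)
  rw [tact_tmul]
  have h : (LinearMap.toSpanSingleton A (trivObj k A) (oneT k A)).restrictScalars k =
      (LinearMap.toSpanSingleton k (trivObj k A) (oneT k A)) ∘ₗ Coalgebra.counit :=
    LinearMap.ext (oneT_smul k)
  have h2 : TensorProduct.map ((LinearMap.toSpanSingleton k (trivObj k A) (oneT k A)) ∘ₗ
      Coalgebra.counit) ((LinearMap.toSpanSingleton A M m).restrictScalars k)
      (Coalgebra.comul (R := k) a) =
      TensorProduct.map (LinearMap.toSpanSingleton k (trivObj k A) (oneT k A))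
        ((LinearMap.toSpanSingleton A M m).restrictScalars k)
        (Coalgebra.counit.rTensor A (Coalgebra.comul (R := k) a)) := by
    rw [LinearMap.map_rTensor]
  rw [h, h2, Coalgebra.rTensor_counit_comul]
  simp

/-- The map `M → k ⊗ M`, `m ↦ 1 ⊗ m`. -/
noncomputable def unitFun (M : ModuleCat.{u} A) (m : M) : TT k (trivObj k A) M :=
  (oneT k A ⊗ₜ[k] m : trivObj k A ⊗[k] M)

theorem unitFun_add (M : ModuleCat.{u} A) (x y : M) :
    unitFun k M (x + y) = unitFun k M x + unitFun k M y :=
  TensorProduct.tmul_add (oneT k A) x y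

theorem unitFun_smul (M : ModuleCat.{u} A) (a : A) (m : M) :
    unitFun k M (a • m) = a • unitFun k M m :=
  unit_smul k M a m

/-- The map `M → k ⊗ M`, `m ↦ 1 ⊗ m`, as an `A`-linear map. -/
noncomputable def unitLin (M : ModuleCat.{u} A) : M →ₗ[A] TT k (trivObj k A) M where
  toFun := unitFun k M
  map_add' := unitFun_add k M
  map_smul' := unitFun_smul k M

theorem unitLin_bijective (M : ModuleCat.{u} A) : Function.Bijective (unitLin k M) := by
  have h1 : Function.Bijective (LinearMap.toSpanSingleton k (trivObj k A) (oneT k A)) := by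
    have h : ∀ c : k, c • oneT k A = (Bialgebra.counitAlgHom k A (algebraMap k A c) * 1 : k) :=
      fun c => rfl
    have h2 : ∀ c : k, (LinearMap.toSpanSingleton k (trivObj k A) (oneT k A)) c =
        (show trivObj k A from c) := by
      intro c
      refine (h c).trans ?_
      rw [AlgHom.commutes, mul_one]
      rfl
    constructor
    · intro c c' hc
      rw [h2, h2] at hc
      exact hc
    · intro c
      exact ⟨(show k from c), h2 _⟩
  let e : k ≃ₗ[k] trivObj k A := LinearEquiv.ofBijective _ h1
  let f : M ≃ₗ[k] trivObj k A ⊗[k] M :=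
    (TensorProduct.lid k M).symm ≪≫ₗ TensorProduct.congr e (LinearEquiv.refl k M)
  have hf : ∀ m, f m = oneT k A ⊗ₜ[k] m := by
    intro m
    have he : e 1 = oneT k A := one_smul k _
    simp only [f, LinearEquiv.trans_apply, TensorProduct.lid_symm_apply,
      TensorProduct.congr_tmul, he, LinearEquiv.refl_apply]
  have hb : Function.Bijective (fun m : M => (oneT k A ⊗ₜ[k] m : trivObj k A ⊗[k] M)) := by
    rw [← funext hf]
    exact f.bijective
  exact hb

/-- The unit isomorphism `M → k ⊗ M`, `m ↦ 1 ⊗ m`. -/
noncomputable def unitMap (M : ModuleCat.{u} A) : M ⟶ (tensFunctor k M).obj (trivObj k A) :=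
  ModuleCat.ofHom (unitLin k M)

instance instIso (M : ModuleCat.{u} A) : IsIso (unitMap k M) :=
  (ConcreteCategory.isIso_iff_bijective _).2 (unitLin_bijective k M)

/-- The element `x ⊗ M` of `Ext M M n`, for `x` in `Ext k k n`. -/
noncomputable def rst (M : ModuleCat.{u} A) {n : ℕ} (x : Ext (trivObj k A) (trivObj k A) n) :
    Ext M M n :=
  (Ext.mk₀ (unitMap k M)).comp
    ((x.mapExactFunctor (tensFunctor k M)).comp (Ext.mk₀ (inv (unitMap k M))) (add_zero n))
    (zero_add n)

theorem rst_one (M : ModuleCat.{u} A) : rst k M (Ext.mk₀ (𝟙 (trivObj k A))) = Ext.mk₀ (𝟙 M) := by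
  rw [rst, Ext.mapExactFunctor_mk₀, Ext.mk₀_comp_mk₀, Ext.mk₀_comp_mk₀,
    CategoryTheory.Functor.map_id, Category.id_comp, IsIso.hom_inv_id]

theorem rst_comp (M : ModuleCat.{u} A) {a b c : ℕ} (x : Ext (trivObj k A) (trivObj k A) a)
    (y : Ext (trivObj k A) (trivObj k A) b) (h : a + b = c) :
    rst k M (x.comp y h) = (rst k M x).comp (rst k M y) h := by
  unfold rst
  rw [Ext.mapExactFunctor_comp, Ext.comp_assoc (Ext.mk₀ (unitMap k M)) _ _ (zero_add a) h
    (by omega)]
  congr 1
  rw [Ext.comp_assoc_of_second_deg_zero, Ext.mk₀_comp_mk₀_assoc, IsIso.inv_hom_id,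
    Ext.mk₀_id_comp, Ext.comp_assoc_of_third_deg_zero]

theorem rst_add (M : ModuleCat.{u} A) {n : ℕ} (x y : Ext (trivObj k A) (trivObj k A) n) :
    rst k M (x + y) = rst k M x + rst k M y := by
  simp only [rst, Ext.mapExactFunctor_add, Ext.add_comp, Ext.comp_add]

theorem rst_zero (M : ModuleCat.{u} A) (n : ℕ) :
    rst k M (0 : Ext (trivObj k A) (trivObj k A) n) = 0 := by
  simp only [rst, Ext.mapExactFunctor_zero, Ext.zero_comp, Ext.comp_zero]

theorem rst_smul (M : ModuleCat.{u} A) {n : ℕ} (c : k)
    (x : Ext (trivObj k A) (trivObj k A) n) : rst k M (c • x) = c • rst k M x := by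
  simp only [rst, Functor.mapExactFunctor_smul, Ext.smul_comp, Ext.comp_smul]

/-- The components `Ext M N n`, viewed as a graded module over the cohomology algebra. -/
def ActExt (M N : ModuleCat.{u} A) (n : ℕ) : Type u := Ext M N n

noncomputable instance instGrpAct (M N : ModuleCat.{u} A) (n : ℕ) : AddCommGroup (ActExt M N n) :=
  (inferInstance : AddCommGroup (Ext M N n))

/-- The class `x` in `Ext k k a` acts on `Ext M N b` by the Yoneda product with `x ⊗ M`. -/
noncomputable instance instGSMul (M N : ModuleCat.{u} A) :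
    GradedMonoid.GSMul (EndExt (trivObj k A)) (ActExt M N) where
  smul x y := (rst k M x).comp y rfl

theorem one_act (M N : ModuleCat.{u} A) (y : GradedMonoid (ActExt M N)) :
    (1 : GradedMonoid (EndExt (trivObj k A))) • y = y := by
  obtain ⟨n, y⟩ := y
  have h := one_comp_sigma (X := M) (Y := N) y
  rw [← rst_one k M] at h
  exact h

theorem mul_act (M N : ModuleCat.{u} A) (x x' : GradedMonoid (EndExt (trivObj k A)))
    (y : GradedMonoid (ActExt M N)) : (x * x') • y = x • x' • y := by
  obtain ⟨a, x⟩ := x
  obtain ⟨b, x'⟩ := x'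
  obtain ⟨c, y⟩ := y
  have h := comp_assoc_sigma (rst k M x) (rst k M x') (z := (y : Ext M N c))
  rw [← rst_comp k M x x' rfl] at h
  exact h

noncomputable instance instGMulAct (M N : ModuleCat.{u} A) :
    GradedMonoid.GMulAction (EndExt (trivObj k A)) (ActExt M N) where
  one_smul := one_act k M N
  mul_smul := mul_act k M N

noncomputable instance instGmodule (M N : ModuleCat.{u} A) :
    DirectSum.Gmodule (EndExt (trivObj k A)) (ActExt M N) where
  smul_add {i j} x y y' := Ext.comp_add (rst k M x) (Z := N) y y' rfl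
  smul_zero {i j} x := Ext.comp_zero (rst k M x) N j (i + j) rfl
  add_smul {i j} x x' y := by
    have h := Ext.add_comp (rst k M x) (rst k M x') (Z := N) y (rfl : i + j = i + j)
    have h' := rst_add k M (x : Ext (trivObj k A) (trivObj k A) i) x'
    exact (congrArg (fun t : Ext M M i => t.comp (y : Ext M N j) rfl) h').trans h
  zero_smul {i j} y := by
    have h := Ext.zero_comp (X := M) (Y := M) (n := i) (Z := N) y (i + j) rfl
    rw [← rst_zero k M i] at h
    exact h

end

end Pool.Agent.Helper59.FG
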