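import Pool.Agent.Helper59.FG.Hopf

/-!
# Projective and injective modules over a finite dimensional Hopf algebra
-/

set_option linter.unusedSectionVars false

open scoped TensorProduct

namespace Pool.Agent.Helper59.FG

universe u

section General

variable {R : Type u} [Ring R]

theorem inj_of_retract {E Q : Type u} [AddCommGroup E] [Module R E] [AddCommGroup Q] [Module R Q]
    (hE : Module.Injective R E) (i : Q →ₗ[R] E) (p : E →ₗ[R] Q) (h : ∀ q, p (i q) = q) :
    Module.Injective R Q := by
  refine ⟨fun M N _ _ _ _ f hf g => ?_⟩
  obtain ⟨g', hg'⟩ := hE.out f hf (i ∘ₗ g)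
  exact ⟨p ∘ₗ g', fun x => by rw [LinearMap.comp_apply, hg', LinearMap.comp_apply, h]⟩

theorem inj_of_equiv {E Q : Type u} [AddCommGroup E] [Module R E] [AddCommGroup Q] [Module R Q]
    (hE : Module.Injective R E) (e : E ≃ₗ[R] Q) : Module.Injective R Q :=
  inj_of_retract hE e.symm.toLinearMap e.toLinearMap (fun q => by simp)

theorem inj_pi {ι : Type} {E : Type u} [AddCommGroup E] [Module R E]
    (hE : Module.Injective R E) : Module.Injective R (ι → E) := by
  refine ⟨fun M N _ _ _ _ f hf g => ?_⟩
  choose g' hg' using fun i : ι => hE.out f hf (LinearMap.proj i ∘ₗ g)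
  exact ⟨LinearMap.pi g', fun x => funext fun i => hg' i x⟩

theorem inj_prod {E Q : Type u} [AddCommGroup E] [Module R E] [AddCommGroup Q] [Module R Q]
    (hE : Module.Injective R E) (hQ : Module.Injective R Q) : Module.Injective R (E × Q) := by
  refine ⟨fun M N _ _ _ _ f hf g => ?_⟩
  obtain ⟨g1, h1⟩ := hE.out f hf (LinearMap.fst R E Q ∘ₗ g)
  obtain ⟨g2, h2⟩ := hQ.out f hf (LinearMap.snd R E Q ∘ₗ g)
  exact ⟨g1.prod g2, fun x => Prod.ext (h1 x) (h2 x)⟩

/-- Monomorphisms from injective modules split. -/
theorem inj_split {E M : Type u} [AddCommGroup E] [Module R E] [AddCommGroup M] [Module R M]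
    (hE : Module.Injective R E) (f : E →ₗ[R] M) (hf : Function.Injective f) :
    ∃ p : M →ₗ[R] E, ∀ x, p (f x) = x := by
  obtain ⟨p, hp⟩ := hE.out f hf LinearMap.id
  exact ⟨p, fun x => hp x⟩

/-- Finitely generated projective modules are retracts of finite free modules. -/
theorem proj_retract (P : Type u) [AddCommGroup P] [Module R P] [Module.Projective R P]
    [Module.Finite R P] : ∃ (n : ℕ) (i : P →ₗ[R] (Fin n → R)) (p : (Fin n → R) →ₗ[R] P),
    ∀ x, p (i x) = x := by
  obtain ⟨n, p, hp⟩ := Module.Finite.exists_fin' R P
  obtain ⟨i, hi⟩ := Module.projective_lifting_property p LinearMap.id hp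
  exact ⟨n, i, p, fun x => congr($hi x)⟩

end General

namespace Ten

variable {k : Type u} [Field k] {A : Type u} [Ring A] [Bialgebra k A]
variable {X Y : Type u} [AddCommGroup X] [Module k X] [Module A X]
    [IsScalarTower k A X] [AddCommGroup Y] [Module k Y] [Module A Y] [IsScalarTower k A Y]

theorem sum_tm {ι : Type} (s : Finset ι) (f : ι → X) (y : Y) :
    tm k A (∑ i ∈ s, f i) y = ∑ i ∈ s, tm k A (f i) y := by
  simp only [tm, TensorProduct.sum_tmul, map_sum]

theorem tm_sum {ι : Type} (s : Finset ι) (x : X) (f : ι → Y) :
    tm k A x (∑ i ∈ s, f i) = ∑ i ∈ s, tm k A x (f i) := by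
  simp only [tm, TensorProduct.tmul_sum, map_sum]

/-- Tensor products commute with finite powers, left. -/
noncomputable def piLeft (ι : Type) [Fintype ι] [DecidableEq ι] :
    Ten k A (ι → X) Y ≃ₗ[A] (ι → Ten k A X Y) :=
  LinearEquiv.ofLinearMap
    (LinearMap.pi fun i => map (LinearMap.proj i) LinearMap.id)
    (∑ i, (map (LinearMap.single A (fun _ : ι => X) i) LinearMap.id) ∘ₗ LinearMap.proj i)
    (by
      refine LinearMap.pi_ext' fun j => ?_
      have : (((LinearMap.pi fun i => map (k := k) (LinearMap.proj i : (ι → X) →ₗ[A] X)
          (LinearMap.id : Y →ₗ[A] Y)) ∘ₗ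
          (∑ i, (map (LinearMap.single A (fun _ : ι => X) i) LinearMap.id) ∘ₗ
            LinearMap.proj i)) ∘ₗ LinearMap.single A (fun _ : ι => Ten k A X Y) j).restrictScalars k
          = (LinearMap.single A (fun _ : ι => Ten k A X Y) j).restrictScalars k := by
        refine ext fun x y => ?_
        ext i
        simp [LinearMap.sum_apply, Pi.single_apply, Finset.sum_apply, apply_ite]
        split_ifs <;> simp [zero_tm]
      exact LinearMap.ext fun z => congr($this z))
    (by
      have : (((∑ i, (map (k := k) (LinearMap.single A (fun _ : ι => X) i)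
          (LinearMap.id : Y →ₗ[A] Y)) ∘ₗ LinearMap.proj i)) ∘ₗ
          (LinearMap.pi fun i => map (LinearMap.proj i : (ι → X) →ₗ[A] X)
          LinearMap.id)).restrictScalars k = LinearMap.id := by
        refine ext fun x y => ?_
        simp [LinearMap.sum_apply]
        rw [← sum_tm, Finset.univ_sum_single]
      exact LinearMap.ext fun z => congr($this z))

/-- Tensor products commute with finite powers, right. -/
noncomputable def piRight (ι : Type) [Fintype ι] [DecidableEq ι] :
    Ten k A Y (ι → X) ≃ₗ[A] (ι → Ten k A Y X) :=
  LinearEquiv.ofLinearMap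
    (LinearMap.pi fun i => map LinearMap.id (LinearMap.proj i))
    (∑ i, (map LinearMap.id (LinearMap.single A (fun _ : ι => X) i)) ∘ₗ LinearMap.proj i)
    (by
      refine LinearMap.pi_ext' fun j => ?_
      have : (((LinearMap.pi fun i => map (k := k) (LinearMap.id : Y →ₗ[A] Y)
          (LinearMap.proj i : (ι → X) →ₗ[A] X)) ∘ₗ
          (∑ i, (map LinearMap.id (LinearMap.single A (fun _ : ι => X) i)) ∘ₗ
            LinearMap.proj i)) ∘ₗ LinearMap.single A (fun _ : ι => Ten k A Y X) j).restrictScalars k
          = (LinearMap.single A (fun _ : ι => Ten k A Y X) j).restrictScalars k := by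
        refine ext fun x y => ?_
        ext i
        simp [LinearMap.sum_apply, Pi.single_apply, Finset.sum_apply, apply_ite]
        split_ifs with h <;> simp [tm_zero, h]
      exact LinearMap.ext fun z => congr($this z))
    (by
      have : (((∑ i, (map (k := k) (LinearMap.id : Y →ₗ[A] Y)
          (LinearMap.single A (fun _ : ι => X) i)) ∘ₗ LinearMap.proj i)) ∘ₗ
          (LinearMap.pi fun i => map LinearMap.id
            (LinearMap.proj i : (ι → X) →ₗ[A] X))).restrictScalars k = LinearMap.id := by
        refine ext fun x y => ?_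
        simp [LinearMap.sum_apply]
        rw [← tm_sum, Finset.univ_sum_single]
      exact LinearMap.ext fun z => congr($this z))

end Ten

section Main

variable {k : Type u} [Field k] {A : Type u} [Ring A] [HopfAlgebra k A] [Module.Finite k A]
variable {X Y : Type u} [AddCommGroup X] [Module k X] [Module A X]
    [IsScalarTower k A X] [AddCommGroup Y] [Module k Y] [Module A Y] [IsScalarTower k A Y]

/-- A finite dimensional Hopf algebra is self-injective. -/
theorem self_injective (k A : Type u) [Field k] [Ring A] [HopfAlgebra k A] [Module.Finite k A] :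
    Module.Injective A A := by
  have h1 : Module.Injective A (Ten k A A (Coind k A k)) :=
    inj_of_equiv Coind.injective (coindEquiv k A A).symm
  have h2 : Module.Injective A (A ⊗[k] (Coind k A k)) :=
    inj_of_equiv h1 (Ten.freeEquiv k A (Coind k A k)).symm
  let y0 : Coind k A k := (show Coind k A k from (Coalgebra.counit (R := k) (A := A)))
  let i : A →ₗ[A] A ⊗[k] (Coind k A k) := LinearMap.toSpanSingleton A _ (1 ⊗ₜ y0)
  let η : Coind k A k →ₗ[k] k := LinearMap.applyₗ (R := k) (M₂ := k) (1 : A)
  let p : A ⊗[k] (Coind k A k) →ₗ[A] A :=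
    (TensorProduct.AlgebraTensorModule.rid k A A).toLinearMap ∘ₗ LinearMap.baseChange A η
  refine inj_of_retract h2 i p fun a => ?_
  simp only [i, p, LinearMap.toSpanSingleton_apply, LinearMap.comp_apply]
  rw [TensorProduct.smul_tmul', LinearMap.baseChange_tmul]
  change (TensorProduct.AlgebraTensorModule.rid k A A) _ = _
  rw [TensorProduct.AlgebraTensorModule.rid_tmul]
  change (Coalgebra.counit (R := k) (1 : A)) • (a • (1 : A)) = a
  simp

/-- Finitely generated projective modules are injective. -/
theorem inj_of_proj (k : Type u) {A : Type u} [Field k] [Ring A] [HopfAlgebra k A]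
    [Module.Finite k A] (P : Type u) [AddCommGroup P] [Module A P] [Module.Projective A P]
    [Module.Finite A P] : Module.Injective A P := by
  obtain ⟨n, i, p, h⟩ := proj_retract (R := A) P
  exact inj_of_retract (inj_pi (self_injective k A)) i p h

/-- `P ⊗ Y` is projective if `P` is. -/
theorem proj_ten_left [Module.Finite k Y] [Module.Projective A X] [Module.Finite A X] :
    Module.Projective A (Ten k A X Y) := by
  obtain ⟨n, i, p, h⟩ := proj_retract (R := A) X
  have h0 : Module.Projective A (Ten k A A Y) :=
    Module.Projective.of_equiv (Ten.freeEquiv k A Y)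
  have h1 : Module.Projective A (Fin n → Ten k A A Y) :=
    Module.Projective.of_equiv (DirectSum.linearEquivFunOnFintype A (Fin n)
      (fun _ => Ten k A A Y))
  have h2 : Module.Projective A (Ten k A (Fin n → A) Y) :=
    Module.Projective.of_equiv (Ten.piLeft (Fin n)).symm
  refine Module.Projective.of_split (Ten.map i (LinearMap.id : Y →ₗ[A] Y)) (Ten.map p LinearMap.id) ?_
  have : (Ten.map (k := k) p (LinearMap.id : Y →ₗ[A] Y) ∘ₗ Ten.map i LinearMap.id).restrictScalars k
      = LinearMap.id := Ten.ext fun x y => by simp [h]
  exact LinearMap.ext fun z => congr($this z)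

/-- The canonical map of an injective finite dimensional module to a coinduced module splits. -/
theorem inj_retract_coind (E : Type u) [AddCommGroup E] [Module k E] [Module A E]
    [IsScalarTower k A E] (hE : Module.Injective A E) :
    ∃ p : Coind k A E →ₗ[A] E, ∀ x, p (Coind.lift (A := A) (LinearMap.id (M := E) (R := k)) x) = x :=
  inj_split hE _ Coind.lift_id_injective

/-- `X ⊗ E` is injective if `E` is. -/
theorem inj_ten_right [Module.Finite k X] [Module.Finite k Y] (hY : Module.Injective A Y) :
    Module.Injective A (Ten k A X Y) := by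
  obtain ⟨p, hp⟩ := inj_retract_coind (k := k) Y hY
  -- `Coind k A Y` is a finite power of `Coind k A k`
  let b := Module.finBasis k Y
  let e : Coind k A Y ≃ₗ[A] (Fin (Module.finrank k Y) → Coind k A k) :=
    mkEquiv (k := k)
      { toFun := fun g i => (show Coind k A k from (b.coord i) ∘ₗ (show A →ₗ[k] Y from g))
        map_add' := fun g g' => by
          funext i
          refine LinearMap.ext fun a => ?_
          exact map_add (b.coord i) _ _
        map_smul' := fun c g => by
          funext i
          refine LinearMap.ext fun a => ?_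
          exact map_smul (b.coord i) _ _
        invFun := fun h => (show Coind k A Y from
          ∑ i, (LinearMap.toSpanSingleton k Y (b i)) ∘ₗ (show A →ₗ[k] k from h i))
        left_inv := fun g => by
          refine LinearMap.ext fun a => ?_
          change (∑ i, (LinearMap.toSpanSingleton k Y (b i)) ∘ₗ
            ((b.coord i) ∘ₗ (show A →ₗ[k] Y from g))) a = _
          simp only [LinearMap.sum_apply, LinearMap.comp_apply, LinearMap.toSpanSingleton_apply,
            Module.Basis.coord_apply]
          exact b.sum_repr _
        right_inv := fun h => by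
          funext i
          refine LinearMap.ext fun a => ?_
          change (b.coord i) ((∑ j, (LinearMap.toSpanSingleton k Y (b j)) ∘ₗ
            (show A →ₗ[k] k from h j)) a) = (show A →ₗ[k] k from h i) a
          rw [LinearMap.sum_apply, map_sum]
          change ∑ j, b.repr (((show A →ₗ[k] k from h j) a) • b j) i =
            (show A →ₗ[k] k from h i) a
          simp [Finsupp.single_apply] }
      (fun a g => by
        funext i
        refine LinearMap.ext fun a' => ?_
        rfl)
  have h1 : Module.Injective A (Ten k A X (Coind k A k)) :=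
    inj_of_equiv Coind.injective (coindEquiv k A X).symm
  have h2 : Module.Injective A (Ten k A X (Fin (Module.finrank k Y) → Coind k A k)) :=
    inj_of_equiv (inj_pi h1) (Ten.piRight (Fin _)).symm
  have h3 : Module.Injective A (Ten k A X (Coind k A Y)) :=
    inj_of_equiv h2 (Ten.congr (LinearEquiv.refl A X) e.symm)
  refine inj_of_retract h3 (Ten.map LinearMap.id (Coind.lift LinearMap.id))
    (Ten.map LinearMap.id p) fun z => ?_
  have : (Ten.map (k := k) (LinearMap.id : X →ₗ[A] X) p ∘ₗ
      Ten.map LinearMap.id (Coind.lift LinearMap.id)).restrictScalars k = LinearMap.id :=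
    Ten.ext fun x y => by simp [hp]
  exact congr($this z)

variable (k A) in
/-- The trivial module embeds in a finite dimensional projective module. -/
theorem triv_embeds : ∃ (I : Type u) (_ : AddCommGroup I) (_ : Module k I) (_ : Module A I)
    (_ : IsScalarTower k A I) (i : Triv k A →ₗ[A] I), Module.Finite k I ∧
    Module.Projective A I ∧ Function.Injective i := by
  let h : Triv k A →ₗ[k] A := (LinearMap.toSpanSingleton k A 1) ∘ₗ (toTriv k A).symm.toLinearMap
  let e : Coind k A A ≃ₗ[A] A ⊗[k] (Coind k A k) :=
    (coindEquiv k A A).symm ≪≫ₗ (Ten.freeEquiv k A (Coind k A k)).symm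
  refine ⟨Coind k A A, inferInstance, inferInstance, inferInstance, inferInstance,
    Coind.lift h, inferInstance, Module.Projective.of_equiv e.symm, ?_⟩
  rw [injective_iff_map_eq_zero]
  intro c hc
  have h1 : (show A →ₗ[k] A from Coind.lift (A := A) h c) 1 = 0 := by rw [hc]; rfl
  rw [Coind.lift_apply, one_smul] at h1
  have h2 : (toTriv k A).symm c • (1 : A) = 0 := h1
  have h3 : (toTriv k A).symm c = 0 := by
    have := congr(Coalgebra.counit (R := k) $h2)
    rw [map_smul, Bialgebra.counit_one, map_zero, smul_eq_mul, mul_one] at this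
    exact this
  exact (LinearEquiv.map_eq_zero_iff _).1 h3

/-- Finite dimensional injective modules are projective. -/
theorem proj_of_inj (X : Type u) [AddCommGroup X] [Module k X] [Module A X]
    [IsScalarTower k A X] [Module.Finite k X] (hX : Module.Injective A X) :
    Module.Projective A X := by
  obtain ⟨I, _, _, _, _, i, _, _, hi⟩ := triv_embeds k A
  have : Module.Finite A I := Module.Finite.of_restrictScalars_finite k A I
  have h1 : Module.Projective A (Ten k A I X) := proj_ten_left
  let f : X →ₗ[A] Ten k A I X := Ten.map i LinearMap.id ∘ₗ (Ten.lid (k := k)).symm.toLinearMap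
  have hf : Function.Injective f :=
    (Ten.map_injective i LinearMap.id hi Function.injective_id).comp (LinearEquiv.injective _)
  obtain ⟨p, hp⟩ := inj_split hX f hf
  exact Module.Projective.of_split f p (LinearMap.ext hp)

/-- `X ⊗ P` is projective if `P` is. -/
theorem proj_ten_right [Module.Finite k X] [Module.Finite k Y] [Module.Projective A Y]
    [Module.Finite A Y] : Module.Projective A (Ten k A X Y) :=
  proj_of_inj (k := k) _ (inj_ten_right (inj_of_proj k Y))

end Main

end Pool.Agent.Helper59.FG
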