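import Pool.Agent.Helper59.FG.Stab

/-!
# One-dimensional modules and the inverse of an endotrivial module
-/

set_option linter.unusedSectionVars false
set_option autoImplicit false

open scoped TensorProduct

namespace Pool.Agent.Helper59.FG

universe u

/-- There are finitely many characters. -/
theorem finite_characters (k : Type u) [Field k] (A : Type u) [Ring A] [Algebra k A]
    [Module.Finite k A] : Finite (A →ₐ[k] k) := by
  have h1 := linearIndependent_monoidHom A k
  have h2 : LinearIndependent k (fun f : A →ₐ[k] k => (f.toLinearMap : A →ₗ[k] k)) := by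
    let L : (A →ₗ[k] k) →ₗ[k] (A → k) :=
      { toFun := fun f => f
        map_add' := fun _ _ => rfl
        map_smul' := fun _ _ => rfl }
    refine LinearIndependent.of_comp L ?_
    exact h1.comp (fun f : A →ₐ[k] k => (f : A →* k)) (fun f g h => by
      ext a
      exact congrArg (fun φ : A →* k => φ a) h)
  exact h2.finite_of_isNoetherian

section

variable {k : Type u} [Field k] {A : Type u} [Ring A] [Algebra k A]

/-- The module of a representation. -/
def modOf {V : Type u} [AddCommGroup V] [Module k V] [Module.Finite k V]
    (ρ : A →ₐ[k] Module.End k V) : FDM k A :=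
  { X := V
    iA := Module.compHom V ρ.toRingHom
    iT := by
      let := Module.compHom V ρ.toRingHom
      refine ⟨fun c a v => ?_⟩
      change ρ (c • a) v = c • ρ a v
      rw [map_smul]; rfl }

theorem modOf_smul {V : Type u} [AddCommGroup V] [Module k V] [Module.Finite k V]
    (ρ : A →ₐ[k] Module.End k V) (a : A) (v : (modOf ρ).X) :
    a • v = (show (modOf ρ).X from ρ a (show V from v)) := rfl

/-- The one-dimensional module of a character. -/
noncomputable def chi (χ : A →ₐ[k] k) : FDM k A := modOf ((Algebra.lsmul k k k).comp χ)

theorem chi_smul (χ : A →ₐ[k] k) (a : A) (c : (chi χ).X) :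
    a • c = (show (chi χ).X from (χ a * (show k from c))) := rfl

/-- One-dimensional modules come from characters. -/
theorem exists_chi (X : Type u) [AddCommGroup X] [Module k X] [Module A X]
    [IsScalarTower k A X] (h : Module.finrank k X = 1) :
    ∃ χ : A →ₐ[k] k, Nonempty (X ≃ₗ[A] (chi χ).X) := by
  have hf : Module.Finite k X := Module.finite_of_finrank_pos (by omega)
  let e : X ≃ₗ[k] k := LinearEquiv.ofFinrankEq X k (by rw [h, Module.finrank_self])
  have key : ∀ (a : A) (x : X), e (a • x) = e (a • e.symm 1) * e x := by
    intro a x
    have h1 : x = e x • e.symm 1 := by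
      apply e.injective
      rw [map_smul, LinearEquiv.apply_symm_apply, smul_eq_mul, mul_one]
    have h2 : a • x = e x • (a • e.symm 1) := by
      conv_lhs => rw [h1]
      rw [smul_comm]
    rw [h2, map_smul, smul_eq_mul, mul_comm]
  let χ : A →ₐ[k] k := AlgHom.ofLinearMap
    (e.toLinearMap ∘ₗ ((LinearMap.toSpanSingleton A X (e.symm 1)).restrictScalars k))
    (by simp) (fun a b => by
      change e ((a * b) • e.symm 1) = e (a • e.symm 1) * e (b • e.symm 1)
      rw [mul_smul, key a])
  refine ⟨χ, ⟨mkEquiv (A := A) (Y := (chi χ).X) (show X ≃ₗ[k] (chi χ).X from e) fun a x => ?_⟩⟩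
  exact key a x

/-- A module containing an injective module of codimension one. -/
theorem exists_chi_prod (M R : Type u) [AddCommGroup M] [Module k M] [Module A M]
    [IsScalarTower k A M] [Module.Finite k M] [AddCommGroup R] [Module k R] [Module A R]
    [IsScalarTower k A R] (hR : Module.Injective A R) (f : R →ₗ[A] M)
    (hf : Function.Injective f) (h : Module.finrank k M = Module.finrank k R + 1) :
    ∃ χ : A →ₐ[k] k, Nonempty (M ≃ₗ[A] ((chi χ).X × R)) := by
  obtain ⟨p, hp⟩ := inj_split hR f hf
  let e : M ≃ₗ[A] (LinearMap.ker p × R) :=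
    { toFun := fun m => (⟨m - f (p m), by rw [LinearMap.mem_ker, map_sub, hp, sub_self]⟩, p m)
      map_add' := fun m m' => by
        ext
        · simp; abel
        · simp
      map_smul' := fun a m => by
        ext
        · simp [smul_sub]
        · simp
      invFun := fun z => z.1.1 + f z.2
      left_inv := fun m => by simp
      right_inv := fun z => by
        have hz : p z.1.1 = 0 := z.1.2
        ext
        · simp [hp, hz]
        · simp [hp, hz] }
  have hfin : Module.Finite k R :=
    Module.Finite.of_surjective (p.restrictScalars k) (fun r => ⟨f r, hp r⟩)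
  have hfin2 : Module.Finite k (LinearMap.ker p) :=
    Module.Finite.of_injective ((LinearMap.ker p).subtype.restrictScalars k)
      (Submodule.injective_subtype _)
  have h1 : Module.finrank k (LinearMap.ker p) = 1 := by
    have h2 := LinearEquiv.finrank_eq (e.restrictScalars k)
    rw [Module.finrank_prod] at h2
    omega
  obtain ⟨χ, ⟨e'⟩⟩ := exists_chi (k := k) (A := A) (LinearMap.ker p) h1
  exact ⟨χ, ⟨e ≪≫ₗ e'.prodCongr (LinearEquiv.refl A R)⟩⟩

end

end Pool.Agent.Helper59.FG
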