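import Pool.Agent.Helper59.FG.Fin1

/-!
# Modules which are stably trivial
-/

set_option linter.unusedSectionVars false
set_option autoImplicit false

open scoped TensorProduct

namespace Pool.Agent.Helper59.FG

universe u

section

variable {k : Type u} [Field k] {A : Type u} [Ring A] [HopfAlgebra k A] [Module.Finite k A]

theorem triv_eq (t : Triv k A) : t = (toTriv k A).symm t • toTriv k A 1 := by
  apply (toTriv k A).symm.injective
  rw [map_smul, LinearEquiv.symm_apply_apply, smul_eq_mul, mul_one]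

/-- A `k`-linear endomorphism of the trivial module is a scalar. -/
theorem triv_end (f : Triv k A →ₗ[A] Triv k A) (t : Triv k A) :
    f t = (toTriv k A).symm (f (toTriv k A 1)) • t := by
  have h1 : f t = (toTriv k A).symm t • f (toTriv k A 1) := by
    conv_lhs => rw [triv_eq t]
    exact (f.restrictScalars k).map_smul _ _
  apply (toTriv k A).symm.injective
  rw [h1, map_smul, map_smul, smul_eq_mul, smul_eq_mul, mul_comm]

/-- A stably trivial module is the direct sum of the trivial module and a projective module. -/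
theorem split_of_cls_eq_one {N : FDM k A} (h : cls N = 1)
    (hk : ¬ Module.Projective A (Triv k A)) :
    ∃ R : FDM k A, Module.Projective A R.X ∧ Nonempty (N.X ≃ₗ[A] (Triv k A × R.X)) := by
  obtain ⟨P, Q, hP, hQ, ⟨e⟩⟩ := cls_eq.1 (h.trans one_eq)
  change (N.X × P.X) ≃ₗ[A] (Triv k A × Q.X) at e
  let s1 : Triv k A →ₗ[A] N.X :=
    LinearMap.fst A N.X P.X ∘ₗ e.symm.toLinearMap ∘ₗ LinearMap.inl A (Triv k A) Q.X
  let s2 : Triv k A →ₗ[A] P.X :=
    LinearMap.snd A N.X P.X ∘ₗ e.symm.toLinearMap ∘ₗ LinearMap.inl A (Triv k A) Q.X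
  let r1 : N.X →ₗ[A] Triv k A :=
    LinearMap.fst A (Triv k A) Q.X ∘ₗ e.toLinearMap ∘ₗ LinearMap.inl A N.X P.X
  let r2 : P.X →ₗ[A] Triv k A :=
    LinearMap.fst A (Triv k A) Q.X ∘ₗ e.toLinearMap ∘ₗ LinearMap.inr A N.X P.X
  have hrs : ∀ t, r1 (s1 t) + r2 (s2 t) = t := by
    intro t
    have h1 : e (s1 t, s2 t) = (t, 0) := by
      change e (e.symm (t, 0)) = _
      rw [LinearEquiv.apply_symm_apply]
    have h2 : ((s1 t, s2 t) : N.X × P.X) = (s1 t, 0) + (0, s2 t) := by simp
    rw [h2, map_add] at h1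
    exact congrArg Prod.fst h1
  have hc : (toTriv k A).symm ((r2 ∘ₗ s2) (toTriv k A 1)) = 0 := by
    by_contra hc
    set c := (toTriv k A).symm ((r2 ∘ₗ s2) (toTriv k A 1)) with hcdef
    apply hk
    refine Module.Projective.of_split s2
      (mkLin (A := A) (c⁻¹ • (r2.restrictScalars k)) (fun a x => ?_)) ?_
    · change c⁻¹ • r2 (a • x) = a • (c⁻¹ • r2 x)
      rw [map_smul, smul_comm]
    · refine LinearMap.ext fun t => ?_
      change c⁻¹ • (r2 ∘ₗ s2) t = t
      rw [triv_end (r2 ∘ₗ s2) t, ← hcdef, smul_smul, inv_mul_cancel₀ hc, one_smul]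
  have hr2 : ∀ t, r2 (s2 t) = 0 := by
    intro t
    have := triv_end (r2 ∘ₗ s2) t
    rw [hc, zero_smul] at this
    exact this
  have hr1 : ∀ t, r1 (s1 t) = t := by
    intro t
    have := hrs t
    rwa [hr2, add_zero] at this
  have hfin : Module.Finite k (LinearMap.ker r1) :=
    Module.Finite.of_injective ((LinearMap.ker r1).subtype.restrictScalars k)
      (Submodule.injective_subtype _)
  refine ⟨⟨LinearMap.ker r1⟩, ?_, ⟨?_⟩⟩
  · change Module.Projective A (LinearMap.ker r1)
    let j : LinearMap.ker r1 →ₗ[A] Q.X :=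
      LinearMap.snd A (Triv k A) Q.X ∘ₗ e.toLinearMap ∘ₗ LinearMap.inl A N.X P.X ∘ₗ
        (LinearMap.ker r1).subtype
    let pk : N.X →ₗ[A] LinearMap.ker r1 :=
      LinearMap.codRestrict (LinearMap.ker r1) (LinearMap.id - s1 ∘ₗ r1) (fun x => by
        have h0 : r1 (x - s1 (r1 x)) = 0 := by rw [map_sub, hr1, sub_self]
        exact h0)
    refine Module.Projective.of_split j
      (pk ∘ₗ LinearMap.fst A N.X P.X ∘ₗ e.symm.toLinearMap ∘ₗ LinearMap.inr A (Triv k A) Q.X) ?_
    refine LinearMap.ext fun x => ?_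
    have h1 : e (x.1, 0) = (0, j x) := by
      refine Prod.ext ?_ rfl
      exact x.2
    have h2 : e.symm (0, j x) = (x.1, 0) := by
      rw [← h1, LinearEquiv.symm_apply_apply]
    apply Subtype.ext
    change (e.symm (0, j x)).1 - s1 (r1 (e.symm (0, j x)).1) = x.1
    rw [h2]
    have h3 : r1 x.1 = 0 := x.2
    change x.1 - s1 (r1 x.1) = x.1
    rw [h3, map_zero, sub_zero]
  · change N.X ≃ₗ[A] (Triv k A × LinearMap.ker r1)
    exact
      { toFun := fun x => (r1 x, ⟨x - s1 (r1 x), by
          rw [LinearMap.mem_ker, map_sub, hr1, sub_self]⟩)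
        map_add' := fun m m' => by
          ext
          · simp
          · simp; abel
        map_smul' := fun a m => by
          ext
          · simp
          · simp [smul_sub]
        invFun := fun z => s1 z.1 + z.2.1
        left_inv := fun m => by simp
        right_inv := fun z => by
          have hz : r1 z.2.1 = 0 := z.2.2
          ext
          · simp [hr1, hz]
          · simp [hr1, hz] }

end

/-! ### Polynomial functions -/

section Poly

variable {k : Type u} [Field k] {W : Type u} [AddCommGroup W] [Module k W]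

/-- Polynomial functions on a space with coordinates `b`. -/
def IsPol {m : ℕ} (b : Module.Basis (Fin m) k W) (f : W → k) : Prop :=
  ∃ p : MvPolynomial (Fin m) k, ∀ w, f w = MvPolynomial.eval (fun i => b.repr w i) p

theorem isPol_linear {m : ℕ} (b : Module.Basis (Fin m) k W) (f : W →ₗ[k] k) : IsPol b f := by
  refine ⟨∑ i, MvPolynomial.C (f (b i)) * MvPolynomial.X i, fun w => ?_⟩
  conv_lhs => rw [← b.sum_repr w]
  rw [map_sum]
  simp [mul_comm]

theorem isPol_det {m : ℕ} (b : Module.Basis (Fin m) k W) {R : Type u} [AddCommGroup R]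
    [Module k R] [Module.Finite k R] (Φ : W →ₗ[k] Module.End k R) :
    IsPol b (fun w => LinearMap.det (Φ w)) := by
  classical
  let c := Module.finBasis k R
  have h : ∀ i j, IsPol b (fun w => c.repr (Φ w (c j)) i) := by
    intro i j
    let L : W →ₗ[k] k := (c.coord i) ∘ₗ (LinearMap.applyₗ (R := k) (c j)) ∘ₗ Φ
    exact isPol_linear b L
  choose p hp using h
  refine ⟨Matrix.det (Matrix.of fun i j => p i j), fun w => ?_⟩
  change LinearMap.det (Φ w) = _
  rw [RingHom.map_det, ← LinearMap.det_toMatrix c]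
  congr 1
  ext i j
  simp only [LinearMap.toMatrix_apply, RingHom.mapMatrix_apply, Matrix.map_apply, Matrix.of_apply]
  exact hp i j w

/-- Finitely many of the open sets `f i ≠ 0` cover all the points. -/
theorem cover {m : ℕ} (b : Module.Basis (Fin m) k W) {ι : Type*} (w : ι → W)
    (f : ι → W → k) (hf : ∀ i, IsPol b (f i)) (h : ∀ i, f i (w i) ≠ 0) :
    ∃ F : Finset ι, ∀ i, ∃ j ∈ F, f j (w i) ≠ 0 := by
  classical
  choose p hp using hf
  have h1 : (Submodule.span (MvPolynomial (Fin m) k) (Set.range p)).FG :=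
    (isNoetherian_def.1 (inferInstanceAs (IsNoetherianRing (MvPolynomial (Fin m) k)))) _
  rw [Submodule.fg_span_iff_fg_span_finset_subset] at h1
  obtain ⟨s, hs, hspan⟩ := h1
  have h2 : ∀ q : s, ∃ i, p i = q.1 := fun q => hs q.2
  choose idx hidx using h2
  refine ⟨Finset.univ.image idx, fun i => ?_⟩
  by_contra hcon
  push Not at hcon
  apply h i
  rw [hp]
  have h3 : p i ∈ Submodule.span (MvPolynomial (Fin m) k) (s : Set (MvPolynomial (Fin m) k)) := by
    rw [← hspan]
    exact Submodule.subset_span ⟨i, rfl⟩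
  have h4 : Submodule.span (MvPolynomial (Fin m) k) (s : Set (MvPolynomial (Fin m) k)) ≤
      RingHom.ker (MvPolynomial.eval (fun j => b.repr (w i) j)) := by
    rw [Submodule.span_le]
    intro q hq
    have h5 := hcon (idx ⟨q, hq⟩) (Finset.mem_image.2 ⟨⟨q, hq⟩, Finset.mem_univ _, rfl⟩)
    rw [hp, hidx] at h5
    exact h5
  exact h4 h3

end Poly

end Pool.Agent.Helper59.FG
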