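import Pool.Agent.Helper59.FG.Fin2

/-!
# Finitely many invertible classes in each dimension
-/

set_option linter.unusedSectionVars false
set_option autoImplicit false

open scoped TensorProduct

namespace Pool.Agent.Helper59.FG

universe u

section

variable {k : Type u} [Field k] {A : Type u} [Ring A] [HopfAlgebra k A]

/-- The formal action of a linear map `w : A → End V` on `V ⊗ Y`. -/
noncomputable def AW (V : Type u) [AddCommGroup V] [Module k V] (Y : Type u) [AddCommGroup Y]
    [Module k Y] [Module A Y] [IsScalarTower k A Y] :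
    (A →ₗ[k] Module.End k V) →ₗ[k] (A →ₗ[k] Module.End k (V ⊗[k] Y)) where
  toFun w := (TensorProduct.homTensorHomMap (RingHom.id k) V Y V Y) ∘ₗ
    (TensorProduct.map w (Algebra.lsmul k k Y).toLinearMap) ∘ₗ Coalgebra.comul
  map_add' w w' := by
    rw [TensorProduct.map_add_left, LinearMap.add_comp, LinearMap.comp_add]
  map_smul' c w := by
    rw [TensorProduct.map_smul_left, LinearMap.smul_comp, LinearMap.comp_smul]
    rfl

/-- The identity as a linear equivalence to the tensor product with the module of `ρ`. -/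
noncomputable def idRho {V : Type u} [AddCommGroup V] [Module k V] [Module.Finite k V]
    (ρ : A →ₐ[k] Module.End k V) (N' : FDM k A) :
    (V ⊗[k] N'.X) ≃ₗ[k] ((modOf ρ).ten N').X := LinearEquiv.refl k (V ⊗[k] N'.X)

theorem act2_eq (X Y : Type u) [AddCommGroup X] [Module k X] [Module A X]
    [IsScalarTower k A X] [AddCommGroup Y] [Module k Y] [Module A Y] [IsScalarTower k A Y]
    (t : A ⊗[k] A) (z : X ⊗[k] Y) :
    act2 k A X Y t z = (TensorProduct.homTensorHomMap (RingHom.id k) X Y X Y)
      ((TensorProduct.map (Algebra.lsmul k k X).toLinearMap (Algebra.lsmul k k Y).toLinearMap) t)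
        z := by
  induction t using TensorProduct.induction_on with
  | zero => simp
  | add s t hs ht =>
    rw [map_add, map_add, map_add, LinearMap.add_apply, LinearMap.add_apply, hs, ht]
  | tmul s t =>
    induction z using TensorProduct.induction_on with
    | zero => simp
    | add y y' hy hy' => rw [map_add, map_add, hy, hy']
    | tmul x y =>
      rw [TensorProduct.map_tmul, TensorProduct.homTensorHomMap_apply, TensorProduct.map_tmul,
        act2_tmul]
      rfl

theorem AW_eq {V : Type u} [AddCommGroup V] [Module k V] [Module.Finite k V]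
    (ρ : A →ₐ[k] Module.End k V) (N' : FDM k A) (a : A) (z : V ⊗[k] N'.X) :
    a • idRho ρ N' z = idRho ρ N' (AW V N'.X ρ.toLinearMap a z) := by
  have h : ∀ z' : (modOf ρ).X ⊗[k] N'.X, act2 k A (modOf ρ).X N'.X (Coalgebra.comul a) z' =
      _ := fun z' => act2_eq (k := k) (A := A) (modOf ρ).X N'.X (Coalgebra.comul a) z'
  exact h z

variable [Module.Finite k A]

theorem exists_pol {V : Type u} [AddCommGroup V] [Module k V] [Module.Finite k V]
    (ρ0 : A →ₐ[k] Module.End k V) (N' : FDM k A) (h : cls (modOf ρ0) * cls N' = 1)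
    (hk : ¬ Module.Projective A (Triv k A)) :
    ∃ f : (A →ₗ[k] Module.End k V) → k,
      (∀ (m : ℕ) (b : Module.Basis (Fin m) k (A →ₗ[k] Module.End k V)), IsPol b f) ∧
      f ρ0.toLinearMap ≠ 0 ∧ ∀ ρ : A →ₐ[k] Module.End k V, f ρ.toLinearMap ≠ 0 →
        ∃ χ : A →ₐ[k] k, cls (modOf ρ) * cls N' = cls (chi χ) := by
  classical
  rw [cls_mul] at h
  obtain ⟨R, hR, ⟨e⟩⟩ := split_of_cls_eq_one h hk
  have hfinR : Module.Finite A R.X := finite_A R
  obtain ⟨n, i, p, hip⟩ := proj_retract (R := A) R.X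
  let φ : R.X →ₗ[A] ((modOf ρ0).ten N').X := e.symm.toLinearMap ∘ₗ LinearMap.inr A (Triv k A) R.X
  have hφ : Function.Injective φ :=
    e.symm.injective.comp (fun x y hxy => congrArg Prod.snd hxy)
  let v : Fin n → V ⊗[k] N'.X := fun l => (idRho ρ0 N').symm (φ (p (Pi.single l 1)))
  let il : Fin n → (R.X →ₗ[k] A) := fun l =>
    ((LinearMap.proj l : (Fin n → A) →ₗ[A] A) ∘ₗ i).restrictScalars k
  let Φ : (A →ₗ[k] Module.End k V) →ₗ[k] (R.X →ₗ[k] V ⊗[k] N'.X) :=
    { toFun := fun w => ∑ l, (LinearMap.applyₗ (R := k) (v l)) ∘ₗ (AW V N'.X w) ∘ₗ (il l)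
      map_add' := fun w w' => by
        rw [← Finset.sum_add_distrib]
        refine Finset.sum_congr rfl fun l _ => ?_
        rw [map_add, LinearMap.add_comp, LinearMap.comp_add]
      map_smul' := fun c w => by
        rw [RingHom.id_apply, Finset.smul_sum]
        refine Finset.sum_congr rfl fun l _ => ?_
        rw [map_smul, LinearMap.smul_comp, LinearMap.comp_smul] }
  have hΦ : ∀ w x, Φ w x = ∑ l, AW V N'.X w (i x l) (v l) := by
    intro w x
    change (∑ l, (LinearMap.applyₗ (R := k) (v l)) ∘ₗ (AW V N'.X w) ∘ₗ (il l)) x = _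
    rw [LinearMap.sum_apply]
    rfl
  obtain ⟨π, hπ⟩ : ∃ π : V ⊗[k] N'.X →ₗ[k] R.X, ∀ x, π ((idRho ρ0 N').symm (φ x)) = x := by
    obtain ⟨π, hπ⟩ := LinearMap.exists_leftInverse_of_injective
      ((idRho ρ0 N').symm.toLinearMap ∘ₗ (φ.restrictScalars k))
      (LinearMap.ker_eq_bot.2 ((idRho ρ0 N').symm.injective.comp hφ))
    exact ⟨π, fun x => congr($hπ x)⟩
  let Ψ : (A →ₗ[k] Module.End k V) →ₗ[k] Module.End k R.X :=
    { toFun := fun w => π ∘ₗ Φ w
      map_add' := fun w w' => by rw [map_add, LinearMap.comp_add]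
      map_smul' := fun c w => by rw [map_smul, LinearMap.comp_smul]; rfl }
  refine ⟨fun w => LinearMap.det (Ψ w), fun m b => isPol_det b Ψ, ?_, ?_⟩
  · have h1 : Ψ ρ0.toLinearMap = LinearMap.id := by
      refine LinearMap.ext fun x => ?_
      change π (Φ ρ0.toLinearMap x) = x
      have h2 : Φ ρ0.toLinearMap x = (idRho ρ0 N').symm (φ x) := by
        rw [hΦ, LinearEquiv.eq_symm_apply, map_sum]
        have h3 : ∀ l, idRho ρ0 N' (AW V N'.X ρ0.toLinearMap (i x l) (v l)) =
            φ (p (Pi.single l (i x l))) := by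
          intro l
          rw [← AW_eq, LinearEquiv.apply_symm_apply, ← map_smul, ← map_smul, ← Pi.single_smul,
            smul_eq_mul, mul_one]
        rw [Finset.sum_congr rfl (fun l _ => h3 l), ← map_sum, ← map_sum,
          Finset.univ_sum_single, hip]
      rw [h2, hπ]
    change LinearMap.det (Ψ ρ0.toLinearMap) ≠ 0
    rw [h1, LinearMap.det_id]
    exact one_ne_zero
  · intro ρ hρ
    have hinj : Function.Injective (Φ ρ.toLinearMap) := by
      have h1 : Function.Injective (Ψ ρ.toLinearMap) := by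
        have h2 : IsUnit (LinearMap.det (Ψ ρ.toLinearMap)) := IsUnit.mk0 _ hρ
        exact (LinearMap.isUnit_iff_isUnit_det _).2 h2 |> (Module.End.isUnit_iff _).1 |>.injective
      intro x y hxy
      apply h1
      change π (Φ ρ.toLinearMap x) = π (Φ ρ.toLinearMap y)
      rw [hxy]
    have hlin : ∀ (a : A) (x : R.X),
        ((idRho ρ N').toLinearMap ∘ₗ Φ ρ.toLinearMap) (a • x) =
          a • ((idRho ρ N').toLinearMap ∘ₗ Φ ρ.toLinearMap) x := by
      intro a x
      rw [LinearMap.comp_apply, LinearMap.comp_apply, hΦ, hΦ]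
      simp only [LinearEquiv.coe_coe, map_sum, Finset.smul_sum]
      refine Finset.sum_congr rfl fun l _ => ?_
      rw [← AW_eq, ← AW_eq, smul_smul, map_smul, Pi.smul_apply, smul_eq_mul]
    have hdim : Module.finrank k ((modOf ρ).ten N').X = Module.finrank k R.X + 1 := by
      have h1 : Module.finrank k ((modOf ρ).ten N').X = Module.finrank k ((modOf ρ0).ten N').X :=
        rfl
      rw [h1, (e.restrictScalars k).finrank_eq, Module.finrank_prod, add_comm]
      congr 1
      exact Module.finrank_self k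
    obtain ⟨χ, ⟨e'⟩⟩ := exists_chi_prod (k := k) (A := A) ((modOf ρ).ten N').X R.X
      (inj_of_proj k R.X) (mkLin (A := A) _ hlin) ((idRho ρ N').injective.comp hinj) hdim
    refine ⟨χ, ?_⟩
    rw [cls_mul, ← cls_prod_proj (chi χ) R hR]
    exact cls_equiv (N := (chi χ).prod R) e'

/-- Every finite dimensional module comes from a representation on a given space. -/
theorem exists_modOf {V : Type u} [AddCommGroup V] [Module k V] [Module.Finite k V]
    (M : FDM k A) (h : Module.finrank k M.X = Module.finrank k V) :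
    ∃ ρ : A →ₐ[k] Module.End k V, cls (modOf ρ) = cls M := by
  let e : M.X ≃ₗ[k] V := LinearEquiv.ofFinrankEq M.X V h
  let ρ : A →ₐ[k] Module.End k V := (e.conjAlgEquiv k).toAlgHom.comp (Algebra.lsmul k k M.X)
  have hρ : ∀ (a : A) (x : V), ρ a x = e (a • e.symm x) := fun a x => rfl
  let e' : (modOf ρ).X ≃ₗ[k] M.X := e.symm
  have he' : ∀ (a : A) (x : (modOf ρ).X), e' (a • x) = a • e' x := by
    intro a x
    exact (congrArg e.symm (hρ a (show V from x))).trans (e.symm_apply_apply _)
  exact ⟨ρ, cls_equiv (mkEquiv (A := A) (k := k) e' he')⟩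

theorem exists_inv {M : FDM k A} (h : IsUnit (cls M)) :
    ∃ N' : FDM k A, cls M * cls N' = 1 ∧ cls N' * cls M = 1 := by
  obtain ⟨y, hy1, hy2⟩ := isUnit_iff_exists.1 h
  obtain ⟨N', hN'⟩ := Quotient.exists_rep y
  have h1 : cls N' = y := hN'
  exact ⟨N', by rw [h1, hy1], by rw [h1, hy2]⟩

theorem finite_classes_aux (V : Type u) [AddCommGroup V] [Module k V] [Module.Finite k V]
    (hk : ¬ Module.Projective A (Triv k A)) :
    {c : StMon k A | IsUnit c ∧ ∃ ρ : A →ₐ[k] Module.End k V, cls (modOf ρ) = c}.Finite := by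
  classical
  have h1 : ∀ i : {ρ : A →ₐ[k] Module.End k V // IsUnit (cls (modOf ρ))},
      ∃ N' : FDM k A, cls (modOf i.1) * cls N' = 1 ∧ cls N' * cls (modOf i.1) = 1 :=
    fun i => exists_inv i.2
  choose N' hN1 hN2 using h1
  choose f hf1 hf2 hf3 using fun i : {ρ : A →ₐ[k] Module.End k V // IsUnit (cls (modOf ρ))} =>
    exists_pol i.1 (N' i) (hN1 i) hk
  let b := Module.finBasis k (A →ₗ[k] Module.End k V)
  obtain ⟨F, hF⟩ := cover b (fun i : {ρ : A →ₐ[k] Module.End k V // IsUnit (cls (modOf ρ))} =>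
    i.1.toLinearMap) f (fun i => hf1 i _ b) hf2
  have hχ := finite_characters k A
  have hfin : (Set.image2 (fun (χ : A →ₐ[k] k)
      (i : {ρ : A →ₐ[k] Module.End k V // IsUnit (cls (modOf ρ))}) =>
        cls (chi χ) * cls (modOf i.1)) Set.univ
      (F : Set {ρ : A →ₐ[k] Module.End k V // IsUnit (cls (modOf ρ))})).Finite :=
    Set.Finite.image2 _ Set.finite_univ F.finite_toSet
  refine hfin.subset ?_
  rintro c ⟨hc, ρ, rfl⟩
  obtain ⟨j, hj, hj2⟩ := hF ⟨ρ, hc⟩
  obtain ⟨χ, h2⟩ := hf3 j ρ hj2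
  refine ⟨χ, Set.mem_univ _, j, hj, ?_⟩
  change cls (chi χ) * cls (modOf j.1) = cls (modOf ρ)
  rw [← h2, mul_assoc, hN2, mul_one]

/-- In each dimension there are finitely many invertible classes. -/
theorem finite_classes (d : ℕ) :
    {c : StMon k A | IsUnit c ∧ ∃ M : FDM k A, Module.finrank k M.X = d ∧ cls M = c}.Finite := by
  by_cases hk : Module.Projective A (Triv k A)
  · exact Set.Subsingleton.finite fun x _ y _ => subsingleton_of_triv_proj hk x y
  refine (finite_classes_aux (k := k) (A := A) (Fin d → k) hk).subset ?_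
  rintro c ⟨hc, M, hM, hMc⟩
  obtain ⟨ρ, hρ⟩ := exists_modOf (V := Fin d → k) M (hM.trans (Module.finrank_fin_fun k).symm)
  exact ⟨hc, ρ, hρ.trans hMc⟩

end

end Pool.Agent.Helper59.FG
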