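import Pool.Agent.Helper59.FG.Tens

/-!
# Free and coinduced modules over a Hopf algebra
-/

set_option linter.unusedSectionVars false

open scoped TensorProduct

namespace Pool.Agent.Helper59.FG

universe u

variable {k : Type u} [Field k] {A : Type u} [Ring A] [HopfAlgebra k A]
variable {X Y Z : Type u} [AddCommGroup X] [Module k X] [Module A X]
    [IsScalarTower k A X] [AddCommGroup Y] [Module k Y] [Module A Y] [IsScalarTower k A Y]
    [AddCommGroup Z] [Module k Z] [Module A Z] [IsScalarTower k A Z]

namespace Ten

/-- `∑ a₁ ⊗ (a₂ * S a₃) = a ⊗ 1`. -/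
theorem key_right (a : A) :
    LinearMap.lTensor A (LinearMap.mul' k A ∘ₗ (HopfAlgebra.antipode k).lTensor A)
      (TensorProduct.assoc k A A A
        (Coalgebra.comul.rTensor A (Coalgebra.comul (R := k) a))) = a ⊗ₜ 1 := by
  rw [Coalgebra.coassoc_apply, ← LinearMap.comp_apply, ← LinearMap.lTensor_comp,
    LinearMap.comp_assoc, HopfAlgebra.mul_antipode_lTensor_comul, LinearMap.lTensor_comp,
    LinearMap.comp_apply, Coalgebra.lTensor_counit_comul]
  simp

/-- `∑ (S a₁ * a₂) ⊗ a₃ = 1 ⊗ a`. -/
theorem key_left (a : A) :
    LinearMap.rTensor A (LinearMap.mul' k A ∘ₗ (HopfAlgebra.antipode k).rTensor A)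
      ((TensorProduct.assoc k A A A).symm
        (Coalgebra.comul.lTensor A (Coalgebra.comul (R := k) a))) = 1 ⊗ₜ a := by
  rw [Coalgebra.coassoc_symm_apply, ← LinearMap.comp_apply, ← LinearMap.rTensor_comp,
    LinearMap.comp_assoc, HopfAlgebra.mul_antipode_rTensor_comul, LinearMap.rTensor_comp,
    LinearMap.comp_apply, Coalgebra.rTensor_counit_comul]
  simp

/-- The map `a ⊗ y ↦ a • (1 ⊗ y)` from the free module to `Ten A Y`. -/
noncomputable def fromFree (k A Y : Type u) [Field k] [Ring A] [HopfAlgebra k A]
    [AddCommGroup Y] [Module k Y] [Module A Y] [IsScalarTower k A Y] :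
    A ⊗[k] Y →ₗ[A] Ten k A A Y :=
  TensorProduct.AlgebraTensorModule.lift
    ((LinearMap.toSpanSingleton A _ ((toTen k A A Y).toLinearMap ∘ₗ
      (TensorProduct.mk k A Y 1))))

@[simp] theorem fromFree_tmul (a : A) (y : Y) :
    fromFree k A Y (a ⊗ₜ y) = a • tm k A (1 : A) y := rfl

theorem sp_one : sp k A (1 : A) = LinearMap.id := by ext a; simp

theorem fromFree_map (y : Y) (t : A ⊗[k] A) :
    fromFree k A Y (TensorProduct.map LinearMap.id (sp k A y ∘ₗ HopfAlgebra.antipode k) t) =
      toTen k A A Y (LinearMap.lTensor A (sp k A y ∘ₗ LinearMap.mul' k A ∘ₗ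
        (HopfAlgebra.antipode k).lTensor A)
        (TensorProduct.assoc k A A A (Coalgebra.comul.rTensor A t))) := by
  induction t using TensorProduct.induction_on with
  | zero => simp
  | add s t hs ht => simp only [map_add, hs, ht]
  | tmul b c =>
    rw [TensorProduct.map_tmul, fromFree_tmul, smul_tm, sp_one, LinearMap.rTensor_tmul]
    congr 1
    induction Coalgebra.comul (R := k) b using TensorProduct.induction_on with
    | zero => simp
    | add s t hs ht => simp only [map_add, TensorProduct.add_tmul, hs, ht]
    | tmul b' b'' => simp [mul_smul]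

theorem fromFree_surjective : Function.Surjective (fromFree k A Y) := by
  have h : ∀ (a : A) (y : Y), tm k A a y ∈ LinearMap.range (fromFree k A Y) := by
    intro a y
    refine ⟨TensorProduct.map LinearMap.id (sp k A y ∘ₗ HopfAlgebra.antipode k)
      (Coalgebra.comul a), ?_⟩
    rw [fromFree_map, LinearMap.lTensor_comp, LinearMap.comp_apply, key_right]
    simp [tm]
  intro z
  have : ∀ w : A ⊗[k] Y, toTen k A A Y w ∈ LinearMap.range (fromFree k A Y) := by
    intro w
    induction w using TensorProduct.induction_on with
    | zero => rw [map_zero]; exact Submodule.zero_mem _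
    | add s t hs ht => rw [map_add]; exact Submodule.add_mem _ hs ht
    | tmul a y => exact h a y
  exact this ((toTen k A A Y).symm z)

theorem fromFree_bijective [Module.Finite k A] [Module.Finite k Y] :
    Function.Bijective (fromFree k A Y) := by
  have h1 : Module.finrank k (A ⊗[k] Y) = Module.finrank k (Ten k A A Y) := rfl
  have h2 : Function.Surjective ((fromFree k A Y).restrictScalars k) := fromFree_surjective
  exact ⟨(LinearMap.injective_iff_surjective_of_finrank_eq_finrank
    (f := (fromFree k A Y).restrictScalars k) h1).2 h2, fromFree_surjective⟩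

/-- `A ⊗ Y` with the diagonal action is free. -/
noncomputable def freeEquiv (k A Y : Type u) [Field k] [Ring A] [HopfAlgebra k A]
    [AddCommGroup Y] [Module k Y] [Module A Y] [IsScalarTower k A Y]
    [Module.Finite k A] [Module.Finite k Y] : A ⊗[k] Y ≃ₗ[A] Ten k A A Y :=
  LinearEquiv.ofBijective (fromFree k A Y) fromFree_bijective

end Ten

/-- The coinduced module `Hom_k(A, X)`, with `(a • g) b = g (b * a)`. -/
def Coind (k : Type u) [Field k] (A : Type u) [Ring A] [Algebra k A] (X : Type u)
    [AddCommGroup X] [Module k X] : Type u := A →ₗ[k] X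

section Coind

variable (k A X) in
/-- The action of `A` on `Hom_k(A, X)`. -/
def coindAct : A →ₐ[k] Module.End k (A →ₗ[k] X) where
  toFun a :=
    { toFun g := g ∘ₗ LinearMap.mulRight k a
      map_add' _ _ := rfl
      map_smul' _ _ := rfl }
  map_one' := by ext g b; simp
  map_mul' a a' := by ext g b; simp [mul_assoc]
  map_zero' := by ext g b; simp
  map_add' a a' := by ext g b; simp [mul_add]
  commutes' c := by
    ext g b
    simp only [LinearMap.coe_mk, AddHom.coe_mk, LinearMap.comp_apply, LinearMap.mulRight_apply,
      Module.algebraMap_end_apply, LinearMap.smul_apply]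
    rw [← Algebra.commutes, ← Algebra.smul_def, map_smul]

noncomputable instance : AddCommGroup (Coind k A X) := inferInstanceAs (AddCommGroup (A →ₗ[k] X))
noncomputable instance : Module k (Coind k A X) := inferInstanceAs (Module k (A →ₗ[k] X))
noncomputable instance : Module A (Coind k A X) :=
  Module.compHom (A →ₗ[k] X) (coindAct k A X).toRingHom
noncomputable instance : IsScalarTower k A (Coind k A X) where
  smul_assoc c a z := by
    change coindAct k A X (c • a) z = c • coindAct k A X a z
    rw [map_smul]; rfl

theorem Coind.smul_apply (a : A) (g : Coind k A X) (b : A) :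
    (show A →ₗ[k] X from a • g) b = (show A →ₗ[k] X from g) (b * a) := rfl

/-- Coinduced modules are injective. -/
theorem Coind.injective : Module.Injective A (Coind k A X) := by
  refine ⟨fun M N _ _ _ _ f hf g => ?_⟩
  let _ : Module k M := Module.compHom M (algebraMap k A)
  let _ : Module k N := Module.compHom N (algebraMap k A)
  have : IsScalarTower k A M := ⟨fun c a m => by
    change (c • a) • m = (algebraMap k A c) • (a • m)
    rw [Algebra.smul_def, mul_smul]⟩
  have : IsScalarTower k A N := ⟨fun c a m => by
    change (c • a) • m = (algebraMap k A c) • (a • m)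
    rw [Algebra.smul_def, mul_smul]⟩
  obtain ⟨r, hr⟩ := LinearMap.exists_leftInverse_of_injective (f.restrictScalars k)
    (LinearMap.ker_eq_bot.2 hf)
  let g0 : M →ₗ[k] X :=
    { toFun m := (show A →ₗ[k] X from g m) 1
      map_add' m m' := by rw [map_add]; rfl
      map_smul' c m := by
        have : g (c • m) = c • g m := (g.restrictScalars k).map_smul c m
        rw [this]; rfl }
  let h : N →ₗ[A] Coind k A X :=
    { toFun n := (show A →ₗ[k] X from (g0 ∘ₗ r) ∘ₗ sp k A n)
      map_add' n n' := by
        refine LinearMap.ext fun b => ?_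
        change g0 (r (b • (n + n'))) = g0 (r (b • n)) + g0 (r (b • n'))
        rw [smul_add, map_add, map_add]
      map_smul' a n := by
        refine LinearMap.ext fun b => ?_
        change g0 (r (b • (a • n))) = g0 (r ((b * a) • n))
        rw [mul_smul] }
  refine ⟨h, fun m => ?_⟩
  refine LinearMap.ext fun b => ?_
  change g0 (r (b • f m)) = (show A →ₗ[k] X from g m) b
  have h1 : r (b • f m) = b • m := by
    rw [← map_smul]
    exact congr($hr (b • m))
  rw [h1]
  change (show A →ₗ[k] X from g (b • m)) 1 = (show A →ₗ[k] X from g m) b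
  rw [map_smul]
  change (show A →ₗ[k] X from g m) (1 * b) = _
  rw [one_mul]

instance [Module.Finite k A] [Module.Finite k X] : Module.Finite k (Coind k A X) :=
  inferInstanceAs (Module.Finite k (A →ₗ[k] X))

/-- The map to a coinduced module given by a `k`-linear map. -/
noncomputable def Coind.lift (h : Y →ₗ[k] X) : Y →ₗ[A] Coind k A X where
  toFun m := h ∘ₗ sp k A m
  map_add' m m' := by
    refine LinearMap.ext fun b => ?_
    change h (b • (m + m')) = h (b • m) + h (b • m')
    rw [smul_add, map_add]
  map_smul' a m := by
    refine LinearMap.ext fun b => ?_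
    change h (b • (a • m)) = h ((b * a) • m)
    rw [mul_smul]

theorem Coind.lift_apply (h : Y →ₗ[k] X) (m : Y) (b : A) :
    (show A →ₗ[k] X from Coind.lift h m) b = h (b • m) := rfl

theorem Coind.lift_id_injective : Function.Injective (Coind.lift (A := A) (LinearMap.id (M := X)
    (R := k))) := by
  rw [injective_iff_map_eq_zero]
  intro m hm
  have := congr((show A →ₗ[k] X from $hm) 1)
  change (1 : A) • m = 0 at this
  rwa [one_smul] at this

/-- Evaluation at `1`. -/
noncomputable def ev1 (k A X : Type u) [Field k] [Ring A] [HopfAlgebra k A]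
    [AddCommGroup X] [Module k X] : Ten k A X (Coind k A k) →ₗ[k] X :=
  (TensorProduct.rid k X).toLinearMap ∘ₗ
    LinearMap.lTensor X (LinearMap.applyₗ (R := k) (M₂ := k) (1 : A)) ∘ₗ
      (toTen k A X (Coind k A k)).symm.toLinearMap

theorem ev1_tm (x : X) (f : Coind k A k) : ev1 k A X (tm k A x f) =
    (show A →ₗ[k] k from f) 1 • x := rfl

/-- The comparison from `X ⊗ A*` to the coinduced module. -/
noncomputable def toCoind (k A X : Type u) [Field k] [Ring A] [HopfAlgebra k A]
    [AddCommGroup X] [Module k X] [Module A X] [IsScalarTower k A X] :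
    Ten k A X (Coind k A k) →ₗ[A] Coind k A X := Coind.lift (ev1 k A X)

/-- The naive comparison as vector spaces. -/
noncomputable def naive (k A X : Type u) [Field k] [Ring A] [HopfAlgebra k A] [Module.Finite k A]
    [AddCommGroup X] [Module k X] : Ten k A X (Coind k A k) ≃ₗ[k] (A →ₗ[k] X) :=
  (toTen k A X (Coind k A k)).symm ≪≫ₗ TensorProduct.comm k X (A →ₗ[k] k) ≪≫ₗ
    dualTensorHomEquiv k A X

theorem naive_tm [Module.Finite k A] (x : X) (f : Coind k A k) (b : A) :
    naive k A X (tm k A x f) b = (show A →ₗ[k] k from f) b • x := by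
  change dualTensorHom k A X ((show A →ₗ[k] k from f) ⊗ₜ x) b = _
  exact dualTensorHom_apply (R := k) (show A →ₗ[k] k from f) b x

/-- `b ↦ ∑ S b₁ • g b₂`. -/
noncomputable def antiV (g : A →ₗ[k] X) : A →ₗ[k] X :=
  TensorProduct.lift ((Algebra.lsmul k k X).toLinearMap.compl₁₂ (HopfAlgebra.antipode k) g) ∘ₗ
    Coalgebra.comul

theorem toCoind_apply (x : X) (f : Coind k A k) (b : A) :
    (show A →ₗ[k] X from toCoind k A X (tm k A x f)) b =
      TensorProduct.lift ((LinearMap.lsmul k X).flip.compl₁₂ (sp k A x)
        (show A →ₗ[k] k from f)) (Coalgebra.comul b) := by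
  change ev1 k A X (b • tm k A x f) = _
  rw [Ten.smul_tm]
  induction Coalgebra.comul (R := k) b using TensorProduct.induction_on with
  | zero => simp
  | add s t hs ht => simp only [map_add, hs, ht]
  | tmul c d =>
    change (show A →ₗ[k] k from f) (1 * d) • (c • x) = (show A →ₗ[k] k from f) d • (c • x)
    rw [one_mul]

theorem antiV_toCoind [Module.Finite k A] (x : X) (f : Coind k A k) :
    antiV (show A →ₗ[k] X from toCoind k A X (tm k A x f)) = naive k A X (tm k A x f) := by
  ext b
  rw [naive_tm]
  have h : ∀ t : A ⊗[k] A, TensorProduct.lift ((Algebra.lsmul k k X).toLinearMap.compl₁₂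
      (HopfAlgebra.antipode k) (show A →ₗ[k] X from toCoind k A X (tm k A x f))) t =
      TensorProduct.lift ((LinearMap.lsmul k X).flip.compl₁₂ (sp k A x)
        (show A →ₗ[k] k from f)) (LinearMap.rTensor A (LinearMap.mul' k A ∘ₗ
          (HopfAlgebra.antipode k).rTensor A)
      ((TensorProduct.assoc k A A A).symm (Coalgebra.comul.lTensor A t))) := by
    intro t
    induction t using TensorProduct.induction_on with
    | zero => simp
    | add s t hs ht => simp only [map_add, hs, ht]
    | tmul c d =>
      rw [LinearMap.lTensor_tmul, TensorProduct.lift.tmul]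
      change HopfAlgebra.antipode k c •
        ((show A →ₗ[k] X from toCoind k A X (tm k A x f)) d) = _
      rw [toCoind_apply]
      induction Coalgebra.comul (R := k) d using TensorProduct.induction_on with
      | zero => simp
      | add s t hs ht => simp only [map_add, TensorProduct.tmul_add, smul_add, hs, ht]
      | tmul d' d'' =>
        simp only [TensorProduct.assoc_symm_tmul,
          LinearMap.rTensor_tmul, LinearMap.comp_apply, LinearMap.mul'_apply]
        change HopfAlgebra.antipode k c • ((show A →ₗ[k] k from f) d'' • (d' • x)) =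
          (show A →ₗ[k] k from f) d'' • ((HopfAlgebra.antipode k c * d') • x)
        rw [mul_smul, smul_comm]
  rw [antiV, LinearMap.comp_apply, h, Ten.key_left]
  change (show A →ₗ[k] k from f) b • ((1 : A) • x) = _
  rw [one_smul]

theorem toCoind_bijective [Module.Finite k A] [Module.Finite k X] :
    Function.Bijective (toCoind k A X) := by
  let V : (A →ₗ[k] X) →ₗ[k] (A →ₗ[k] X) :=
    { toFun g := antiV g
      map_add' g g' := by
        ext b
        simp only [antiV, LinearMap.comp_apply, LinearMap.add_apply]
        induction Coalgebra.comul (R := k) b using TensorProduct.induction_on with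
        | zero => simp
        | add s t hs ht => simp only [map_add, hs, ht]; abel
        | tmul c d => exact smul_add _ _ _
      map_smul' r g := by
        ext b
        simp only [antiV, LinearMap.comp_apply, LinearMap.smul_apply, RingHom.id_apply]
        induction Coalgebra.comul (R := k) b using TensorProduct.induction_on with
        | zero => simp
        | add s t hs ht => simp only [map_add, hs, ht, smul_add]
        | tmul c d => exact smul_comm _ _ _ }
  have hV : ∀ z, V (show A →ₗ[k] X from toCoind k A X z) = naive k A X z := by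
    intro z
    have : V ∘ₗ (show Ten k A X (Coind k A k) →ₗ[k] (A →ₗ[k] X) from
        (toCoind k A X).restrictScalars k) = (naive k A X).toLinearMap :=
      Ten.ext fun x f => antiV_toCoind x f
    exact congr($this z)
  have hinj : Function.Injective (toCoind k A X) := by
    intro z z' hz
    apply (naive k A X).injective
    rw [← hV, ← hV, hz]
  have h1 : Module.finrank k (Ten k A X (Coind k A k)) = Module.finrank k (Coind k A X) :=
    LinearEquiv.finrank_eq (naive k A X)
  exact ⟨hinj, (LinearMap.injective_iff_surjective_of_finrank_eq_finrank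
    (f := (toCoind k A X).restrictScalars k) h1).1 hinj⟩

/-- `X ⊗ A*` is coinduced. -/
noncomputable def coindEquiv (k A X : Type u) [Field k] [Ring A] [HopfAlgebra k A]
    [AddCommGroup X] [Module k X] [Module A X] [IsScalarTower k A X]
    [Module.Finite k A] [Module.Finite k X] : Ten k A X (Coind k A k) ≃ₗ[A] Coind k A X :=
  LinearEquiv.ofBijective (toCoind k A X) toCoind_bijective

end Coind

end Pool.Agent.Helper59.FG
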