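import Pool.Agent.Helper59.FG.Mods

/-!
# Schanuel's lemma and its dual
-/

set_option linter.unusedSectionVars false
set_option autoImplicit false

namespace Pool.Agent.Helper59.FG

universe u

section

variable {R : Type u} [Ring R]
variable {K P M K' P' : Type u} [AddCommGroup K] [Module R K] [AddCommGroup P] [Module R P]
  [AddCommGroup M] [Module R M] [AddCommGroup K'] [Module R K'] [AddCommGroup P'] [Module R P']

/-- Half of Schanuel's lemma: the fibre product over `M` is `K' × P`. -/
theorem schanuel_aux [Module.Projective R P] {f : P →ₗ[R] M}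
    {i' : K' →ₗ[R] P'} {f' : P' →ₗ[R] M} (hi' : Function.Injective i')
    (h' : Function.Exact i' f') (hf' : Function.Surjective f') :
    Nonempty ((K' × P) ≃ₗ[R] LinearMap.eqLocus (f ∘ₗ LinearMap.fst R P P')
      (f' ∘ₗ LinearMap.snd R P P')) := by
  obtain ⟨s, hs⟩ := Module.projective_lifting_property f' f hf'
  have hs' : ∀ p, f' (s p) = f p := fun p => congr($hs p)
  let φ : (K' × P) →ₗ[R] LinearMap.eqLocus (f ∘ₗ LinearMap.fst R P P')
      (f' ∘ₗ LinearMap.snd R P P') :=
    LinearMap.codRestrict _ ((LinearMap.snd R K' P).prod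
      (i' ∘ₗ LinearMap.fst R K' P + s ∘ₗ LinearMap.snd R K' P)) (fun z => by
        change f z.2 = f' (i' z.1 + s z.2)
        rw [map_add, hs', h'.apply_apply_eq_zero, zero_add])
  refine ⟨LinearEquiv.ofBijective φ ⟨?_, ?_⟩⟩
  · rw [injective_iff_map_eq_zero]
    rintro ⟨x, p⟩ hz
    have h1 : p = 0 := congrArg (fun z => z.1.1) hz
    have h2 : i' x + s p = 0 := congrArg (fun z => z.1.2) hz
    rw [h1, map_zero, add_zero] at h2
    rw [h1, hi' (h2.trans (map_zero i').symm)]
    rfl
  · rintro ⟨⟨p, p'⟩, hz⟩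
    have hz' : f p = f' p' := hz
    obtain ⟨x, hx⟩ := (h' (p' - s p)).1 (by rw [map_sub, hs', hz', sub_self])
    refine ⟨(x, p), Subtype.ext (Prod.ext rfl ?_)⟩
    change i' x + s p = p'
    rw [hx, sub_add_cancel]

/-- **Schanuel's lemma.** -/
theorem schanuel [Module.Projective R P] [Module.Projective R P'] {i : K →ₗ[R] P} {f : P →ₗ[R] M}
    (hi : Function.Injective i) (h : Function.Exact i f) (hf : Function.Surjective f)
    {i' : K' →ₗ[R] P'} {f' : P' →ₗ[R] M} (hi' : Function.Injective i')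
    (h' : Function.Exact i' f') (hf' : Function.Surjective f') :
    Nonempty ((K' × P) ≃ₗ[R] (K × P')) := by
  obtain ⟨e⟩ := schanuel_aux (P := P) (f := f) hi' h' hf'
  obtain ⟨e'⟩ := schanuel_aux (P := P') (f := f') hi h hf
  refine ⟨e ≪≫ₗ ?_ ≪≫ₗ e'.symm⟩
  exact
    { toFun := fun z => ⟨(z.1.2, z.1.1), z.2.symm⟩
      map_add' := fun _ _ => rfl
      map_smul' := fun _ _ => rfl
      invFun := fun z => ⟨(z.1.2, z.1.1), z.2.symm⟩
      left_inv := fun _ => rfl
      right_inv := fun _ => rfl }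

end

section

variable {R : Type u} [Ring R]
variable {X E C E' C' : Type u} [AddCommGroup X] [Module R X] [AddCommGroup E] [Module R E]
  [AddCommGroup C] [Module R C] [AddCommGroup E'] [Module R E'] [AddCommGroup C'] [Module R C']

/-- Half of the dual of Schanuel's lemma: the amalgamated sum under `X` is `E × C'`. -/
theorem cosch_aux (hE : Module.Injective R E) {i : X →ₗ[R] E}
    {i' : X →ₗ[R] E'} {f' : E' →ₗ[R] C'} (hi' : Function.Injective i')
    (h' : Function.Exact i' f') (hf' : Function.Surjective f') :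
    Nonempty (((E × E') ⧸ LinearMap.range (i.prod (-i'))) ≃ₗ[R] (E × C')) := by
  obtain ⟨r, hr⟩ := hE.out i' hi' i
  have hr' : ∀ x, r (i' x) = i x := hr
  let φ : (E × E') →ₗ[R] (E × C') :=
    (LinearMap.fst R E E' + r ∘ₗ LinearMap.snd R E E').prod (f' ∘ₗ LinearMap.snd R E E')
  have hφ : ∀ z, φ z = (z.1 + r z.2, f' z.2) := fun z => rfl
  have hker : LinearMap.range (i.prod (-i')) = LinearMap.ker φ := by
    ext ⟨e, e'⟩
    rw [LinearMap.mem_range, LinearMap.mem_ker, hφ]
    constructor
    · rintro ⟨x, hx⟩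
      have h1 : i x = e := congrArg Prod.fst hx
      have h2 : -i' x = e' := congrArg Prod.snd hx
      rw [← h1, ← h2, map_neg, map_neg, hr', h'.apply_apply_eq_zero]
      simp
    · intro h0
      have h1 : e + r e' = 0 := congrArg Prod.fst h0
      have h2 : f' e' = 0 := congrArg Prod.snd h0
      obtain ⟨x, hx⟩ := (h' e').1 h2
      refine ⟨-x, Prod.ext ?_ ?_⟩
      · change i (-x) = e
        rw [map_neg, ← hr', hx]
        exact neg_eq_of_add_eq_zero_left h1
      · change -(i' (-x)) = e'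
        rw [map_neg, neg_neg, hx]
  have hsurj : Function.Surjective φ := by
    rintro ⟨e, c⟩
    obtain ⟨e', rfl⟩ := hf' c
    exact ⟨(e - r e', e'), by rw [hφ]; simp⟩
  exact ⟨Submodule.quotEquivOfEq _ _ hker ≪≫ₗ φ.quotKerEquivOfSurjective hsurj⟩

/-- **The dual of Schanuel's lemma.** -/
theorem cosch (hE : Module.Injective R E) (hE' : Module.Injective R E') {i : X →ₗ[R] E}
    {f : E →ₗ[R] C} (hi : Function.Injective i) (h : Function.Exact i f)
    (hf : Function.Surjective f) {i' : X →ₗ[R] E'} {f' : E' →ₗ[R] C'}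
    (hi' : Function.Injective i') (h' : Function.Exact i' f') (hf' : Function.Surjective f') :
    Nonempty ((E × C') ≃ₗ[R] (E' × C)) := by
  obtain ⟨e⟩ := cosch_aux hE (i := i) hi' h' hf'
  obtain ⟨e'⟩ := cosch_aux hE' (i := i') hi h hf
  let s : (E × E') ≃ₗ[R] (E' × E) := LinearEquiv.prodComm R E E'
  have hs : (LinearMap.range (i.prod (-i'))).map s.toLinearMap =
      LinearMap.range (i'.prod (-i)) := by
    ext ⟨a, b⟩
    simp only [Submodule.mem_map, LinearMap.mem_range]
    constructor
    · rintro ⟨_, ⟨x, rfl⟩, hx⟩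
      have h1 : -i' x = a := congrArg Prod.fst hx
      have h2 : i x = b := congrArg Prod.snd hx
      exact ⟨-x, Prod.ext (by simpa using h1) (by simpa using h2)⟩
    · rintro ⟨x, hx⟩
      have h1 : i' x = a := congrArg Prod.fst hx
      have h2 : -i x = b := congrArg Prod.snd hx
      exact ⟨_, ⟨-x, rfl⟩, Prod.ext (by simpa [s] using h1) (by simpa [s] using h2)⟩
  exact ⟨e.symm ≪≫ₗ Submodule.Quotient.equiv _ _ s hs ≪≫ₗ e'⟩

end

end Pool.Agent.Helper59.FG
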