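import Pool.Agent.Helper59.FG.Fin3
import Pool.Agent.Helper59.FG.Schan

/-!
# Syzygies of the trivial module
-/

set_option linter.unusedSectionVars false
set_option autoImplicit false

open scoped TensorProduct

namespace Pool.Agent.Helper59.FG

universe u

section

variable {k : Type u} [Field k] {A : Type u} [Ring A] [HopfAlgebra k A] [Module.Finite k A]

/-- A short exact sequence of finite dimensional modules. -/
structure SES (X Y Z : FDM k A) where
  i : X.X →ₗ[A] Y.X
  f : Y.X →ₗ[A] Z.X
  inj : Function.Injective i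
  exact : Function.Exact i f
  surj : Function.Surjective f

/-- Tensoring on the right. -/
noncomputable def SES.tenRight {X Y Z : FDM k A} (S : SES X Y Z) (M : FDM k A) :
    SES (X.ten M) (Y.ten M) (Z.ten M) where
  i := Ten.map S.i LinearMap.id
  f := Ten.map S.f LinearMap.id
  inj := Ten.map_injective _ _ S.inj Function.injective_id
  exact := Ten.exact_left _ _ S.exact S.surj
  surj := Ten.map_surjective _ _ S.surj Function.surjective_id

/-- Tensoring on the left. -/
noncomputable def SES.tenLeft {X Y Z : FDM k A} (S : SES X Y Z) (M : FDM k A) :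
    SES (M.ten X) (M.ten Y) (M.ten Z) where
  i := Ten.map LinearMap.id S.i
  f := Ten.map LinearMap.id S.f
  inj := Ten.map_injective _ _ Function.injective_id S.inj
  exact := Ten.exact_right _ _ S.exact S.surj
  surj := Ten.map_surjective _ _ Function.surjective_id S.surj

/-- Replacing the last term by an isomorphic module. -/
noncomputable def SES.congrRight {X Y Z Z' : FDM k A} (S : SES X Y Z) (e : Z.X ≃ₗ[A] Z'.X) :
    SES X Y Z' where
  i := S.i
  f := e.toLinearMap ∘ₗ S.f
  inj := S.inj
  exact := by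
    intro y
    rw [← S.exact y, LinearMap.comp_apply]
    exact LinearEquiv.map_eq_zero_iff e
  surj := e.surjective.comp S.surj

/-- Replacing the first term by an isomorphic module. -/
noncomputable def SES.congrLeft {X X' Y Z : FDM k A} (S : SES X Y Z) (e : X'.X ≃ₗ[A] X.X) :
    SES X' Y Z where
  i := S.i ∘ₗ e.toLinearMap
  f := S.f
  inj := S.inj.comp e.injective
  exact := by
    intro y
    rw [S.exact y]
    constructor
    · rintro ⟨x, rfl⟩
      exact ⟨e.symm x, by simp⟩
    · rintro ⟨x, rfl⟩
      exact ⟨e x, rfl⟩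
  surj := S.surj

theorem proj_ten_left' (P M : FDM k A) (h : Module.Projective A P.X) :
    Module.Projective A (P.ten M).X :=
  haveI := finite_A P
  proj_ten_left (k := k) (A := A) (X := P.X) (Y := M.X)

theorem proj_ten_right' (P M : FDM k A) (h : Module.Projective A P.X) :
    Module.Projective A (M.ten P).X :=
  haveI := finite_A P
  proj_ten_right (k := k) (A := A) (X := M.X) (Y := P.X)

theorem SES.schanuel {K P K' P' M : FDM k A} (S : SES K P M) (S' : SES K' P' M)
    (hP : Module.Projective A P.X) (hP' : Module.Projective A P'.X) : cls K = cls K' := by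
  obtain ⟨e⟩ := Pool.Agent.Helper59.FG.schanuel S.inj S.exact S.surj S'.inj S'.exact S'.surj
  exact (cls_eq.2 ⟨P, P', hP, hP', ⟨e⟩⟩).symm

theorem SES.cosch {X E C E' C' : FDM k A} (S : SES X E C) (S' : SES X E' C')
    (hE : Module.Projective A E.X) (hE' : Module.Projective A E'.X) : cls C = cls C' := by
  have := finite_A E
  have := finite_A E'
  obtain ⟨e⟩ := Pool.Agent.Helper59.FG.cosch (inj_of_proj k E.X) (inj_of_proj k E'.X)
    S.inj S.exact S.surj S'.inj S'.exact S'.surj
  refine (cls_eq.2 ⟨E, E', hE, hE', ⟨?_⟩⟩).symm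
  exact LinearEquiv.prodComm A C'.X E.X ≪≫ₗ e ≪≫ₗ LinearEquiv.prodComm A E'.X C.X

/-- The first syzygy of the trivial module is invertible. -/
theorem isUnit_syz {K P : FDM k A} (S : SES K P (FDM.triv k A)) (hP : Module.Projective A P.X) :
    IsUnit (cls K) := by
  obtain ⟨I, _, _, _, _, i, _, hI, hi⟩ := triv_embeds k A
  let C : FDM k A := ⟨I ⧸ LinearMap.range i⟩
  let T : SES (FDM.triv k A) (⟨I⟩ : FDM k A) C :=
    { i := i
      f := (LinearMap.range i).mkQ
      inj := hi
      exact := LinearMap.exact_map_mkQ_range i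
      surj := Submodule.mkQ_surjective _ }
  have h1 : cls (K.ten C) = cls (FDM.triv k A) :=
    SES.cosch ((T.tenLeft K).congrLeft (X' := K) (Ten.rid (k := k)).symm) S
      (proj_ten_right' _ _ hI) hP
  have h2 : cls (C.ten K) = cls (FDM.triv k A) :=
    SES.cosch ((T.tenRight K).congrLeft (X' := K) (Ten.lid (k := k)).symm) S
      (proj_ten_left' _ _ hI) hP
  exact isUnit_iff_exists.2 ⟨cls C, h1, h2⟩

/-- The syzygies of the trivial module are the powers of the first one. -/
theorem cls_syz {K P : ℕ → FDM k A} (h0 : K 0 = FDM.triv k A)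
    (hP : ∀ n, Module.Projective A (P n).X) (S : ∀ n, SES (K (n + 1)) (P n) (K n)) (n : ℕ) :
    cls (K n) = cls (K 1) ^ n := by
  induction n with
  | zero => rw [h0, pow_zero, one_eq]
  | succ n ih =>
    have S0 : SES (K 1) (P 0) (FDM.triv k A) := h0 ▸ S 0
    have h1 : cls (K (n + 1)) = cls ((K 1).ten (K n)) :=
      SES.schanuel (S n) ((S0.tenRight (K n)).congrRight (Z' := K n) (Ten.lid (k := k))) (hP n)
        (proj_ten_left' _ _ (hP 0))
    rw [h1, ← cls_mul, ih, ← pow_succ']

/-- If infinitely many terms of a projective resolution have bounded dimension then some syzygy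
is stably trivial. -/
theorem exists_period {K P : ℕ → FDM k A} (h0 : K 0 = FDM.triv k A)
    (hP : ∀ n, Module.Projective A (P n).X) (S : ∀ n, SES (K (n + 1)) (P n) (K n)) (D : ℕ)
    (hD : ∀ N, ∃ n, N ≤ n ∧ Module.finrank k (P n).X ≤ D) :
    ∃ a, 1 ≤ a ∧ cls (K a) = 1 := by
  classical
  have S0 : SES (K 1) (P 0) (FDM.triv k A) := h0 ▸ S 0
  have hU : IsUnit (cls (K 1)) := isUnit_syz S0 (hP 0)
  have hfin : (⋃ d ∈ Set.Iic D, {c : StMon k A | IsUnit c ∧
      ∃ M : FDM k A, Module.finrank k M.X = d ∧ cls M = c}).Finite :=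
    Set.Finite.biUnion (Set.finite_Iic D) fun d _ => finite_classes d
  let T : Set ℕ := {n | Module.finrank k (P n).X ≤ D}
  have hT : T.Infinite := by
    rw [Set.infinite_iff_exists_gt]
    intro a
    obtain ⟨n, hn, hn'⟩ := hD (a + 1)
    exact ⟨n, hn', by omega⟩
  have hmaps : Set.MapsTo (fun n => cls (K 1) ^ (n + 1)) T
      (⋃ d ∈ Set.Iic D, {c : StMon k A | IsUnit c ∧
      ∃ M : FDM k A, Module.finrank k M.X = d ∧ cls M = c}) := by
    intro n hn
    rw [Set.mem_iUnion₂]
    refine ⟨Module.finrank k (K (n + 1)).X, ?_, hU.pow _, K (n + 1), rfl, cls_syz h0 hP S _⟩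
    exact (LinearMap.finrank_le_finrank_of_injective (f := (S n).i.restrictScalars k)
      (S n).inj).trans hn
  obtain ⟨i, _, j, _, hij, heq⟩ := hT.exists_ne_map_eq_of_mapsTo hmaps hfin
  have key : ∀ i j : ℕ, i < j → cls (K 1) ^ (i + 1) = cls (K 1) ^ (j + 1) →
      ∃ a, 1 ≤ a ∧ cls (K a) = 1 := by
    intro i j hlt he
    refine ⟨j - i, by omega, ?_⟩
    rw [cls_syz h0 hP S]
    apply (hU.pow (i + 1)).mul_left_cancel
    rw [← pow_add, mul_one, show i + 1 + (j - i) = j + 1 by omega, he]
  rcases lt_or_gt_of_ne hij with h | h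
  · exact key i j h heq
  · exact key j i h heq.symm

end

end Pool.Agent.Helper59.FG
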