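import Pool.Agent.Helper59.FG.Fg
import Pool.Agent.Helper59.FG.Syz

/-!
# Hopf algebras of complexity one
-/

set_option linter.unusedSectionVars false
set_option autoImplicit false

open CategoryTheory CategoryTheory.Abelian CategoryTheory.Limits DirectSum
open scoped ModuleCat TensorProduct

namespace Pool.Agent.Helper59.FG

universe u

section

variable (k : Type u) [Field k] {A : Type u} [Ring A] [HopfAlgebra k A] [Module.Finite k A]

/-- An object as a finite dimensional module. -/
noncomputable def toF (X : ModuleCat.{u} A) (h : Module.Finite A X) : FDM k A :=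
  haveI : Module.Finite k X := Module.Finite.trans A X
  ⟨X⟩

instance : Module.Finite A (trivObj k A) :=
  (Module.Finite.of_restrictScalars_finite k A (Triv k A) : Module.Finite A (Triv k A))

variable {P : ℕ → ModuleCat.{u} A} (d : ∀ n, P (n + 1) ⟶ P n) (ε : P 0 ⟶ trivObj k A)

/-- The syzygies. -/
noncomputable def syzK : ℕ → ModuleCat.{u} A
  | 0 => trivObj k A
  | 1 => ModuleCat.of A (LinearMap.ker ε.hom)
  | n + 2 => ModuleCat.of A (LinearMap.ker (d n).hom)

/-- The inclusions of the syzygies. -/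
noncomputable def syzI : ∀ n, syzK k d ε (n + 1) ⟶ P n
  | 0 => ModuleCat.ofHom (LinearMap.ker ε.hom).subtype
  | n + 1 => ModuleCat.ofHom (LinearMap.ker (d n).hom).subtype

variable (hε : Function.Surjective ε.hom) (h0 : Function.Exact (d 0).hom ε.hom)
  (h : ∀ n, Function.Exact (d (n + 1)).hom (d n).hom)

/-- The projections to the syzygies. -/
noncomputable def syzF : ∀ n, P n ⟶ syzK k d ε n
  | 0 => ε
  | 1 => ModuleCat.ofHom (LinearMap.codRestrict (LinearMap.ker ε.hom) (d 0).hom
      (fun x => h0.apply_apply_eq_zero x))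
  | n + 2 => ModuleCat.ofHom (LinearMap.codRestrict (LinearMap.ker (d n).hom) (d (n + 1)).hom
      (fun x => (h n).apply_apply_eq_zero x))

include hε in
theorem syzF_surj (n : ℕ) : Function.Surjective (syzF k d ε h0 h n).hom := by
  match n with
  | 0 => exact hε
  | 1 =>
    rintro ⟨y, hy⟩
    obtain ⟨x, hx⟩ := (h0 y).1 hy
    exact ⟨x, Subtype.ext hx⟩
  | n + 2 =>
    rintro ⟨y, hy⟩
    obtain ⟨x, hx⟩ := (h n y).1 hy
    exact ⟨x, Subtype.ext hx⟩

theorem syzI_inj (n : ℕ) : Function.Injective (syzI k d ε n).hom := by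
  match n with
  | 0 => exact Submodule.injective_subtype _
  | n + 1 => exact Submodule.injective_subtype _

theorem syz_exact (n : ℕ) : Function.Exact (syzI k d ε n).hom (syzF k d ε h0 h n).hom := by
  match n with
  | 0 =>
    intro x
    exact ⟨fun hx => ⟨⟨x, hx⟩, rfl⟩, by rintro ⟨y, rfl⟩; exact y.2⟩
  | 1 =>
    intro x
    constructor
    · intro hx
      exact ⟨⟨x, congrArg Subtype.val hx⟩, rfl⟩
    · rintro ⟨y, rfl⟩
      exact Subtype.ext y.2
  | n + 2 =>
    intro x
    constructor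
    · intro hx
      exact ⟨⟨x, congrArg Subtype.val hx⟩, rfl⟩
    · rintro ⟨y, rfl⟩
      exact Subtype.ext y.2

theorem syz_w (n : ℕ) : syzI k d ε n ≫ syzF k d ε h0 h n = 0 := by
  ext x
  exact (syz_exact k d ε h0 h n).apply_apply_eq_zero x

include hε in
theorem syz_shortExact (n : ℕ) :
    (ShortComplex.mk (syzI k d ε n) (syzF k d ε h0 h n) (syz_w k d ε h0 h n)).ShortExact :=
  ModuleCat.shortComplex_shortExact _ (syz_exact k d ε h0 h n) (syzI_inj k d ε n)
    (syzF_surj k d ε hε h0 h n)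

theorem syzK_finite (hP : ∀ n, Module.Finite A (P n)) (n : ℕ) :
    Module.Finite A (syzK k d ε n) := by
  have hA : IsNoetherianRing A := isNoetherian_of_tower k (inferInstance : IsNoetherian k A)
  match n with
  | 0 => exact inferInstanceAs (Module.Finite A (trivObj k A))
  | 1 =>
    have := hP 0
    exact inferInstanceAs (Module.Finite A (LinearMap.ker ε.hom))
  | n + 2 =>
    have := hP (n + 1)
    exact inferInstanceAs (Module.Finite A (LinearMap.ker (d n).hom))

/-- The syzygies as finite dimensional modules. -/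
noncomputable def syzFD (hP : ∀ n, Module.Finite A (P n)) : ℕ → FDM k A
  | 0 => FDM.triv k A
  | n + 1 => toF k (syzK k d ε (n + 1)) (syzK_finite k d ε hP (n + 1))

include hε h0 h in
theorem exists_syz_period (hP : ∀ n, Module.Finite A (P n)) (hproj : ∀ n, Module.Projective A (P n))
    (D : ℕ) (hD : ∀ N, ∃ n, N ≤ n ∧ Module.finrank k (P n) ≤ D) :
    ∃ a, 1 ≤ a ∧ ∃ (Q : ModuleCat.{u} A) (u : syzK k d ε a ⟶ trivObj k A)
      (v : trivObj k A ⟶ syzK k d ε a) (p : syzK k d ε a ⟶ Q) (q : Q ⟶ syzK k d ε a),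
      Module.Projective A Q ∧ Module.Finite A Q ∧ u ≫ v = 𝟙 _ + p ≫ q ∧
      ∃ (Q' : ModuleCat.{u} A), Module.Projective A Q' ∧ Module.Finite A Q' ∧
        Nonempty ((syzK k d ε a × Q') ≃ₗ[A] (trivObj k A × Q)) := by
  have S : ∀ n, SES (syzFD k d ε hP (n + 1)) (toF k (P n) (hP n)) (syzFD k d ε hP n) := by
    intro n
    match n with
    | 0 =>
      exact
        { i := (syzI k d ε 0).hom
          f := (syzF k d ε h0 h 0).hom
          inj := syzI_inj k d ε 0
          exact := syz_exact k d ε h0 h 0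
          surj := syzF_surj k d ε hε h0 h 0 }
    | n + 1 =>
      exact
        { i := (syzI k d ε (n + 1)).hom
          f := (syzF k d ε h0 h (n + 1)).hom
          inj := syzI_inj k d ε (n + 1)
          exact := syz_exact k d ε h0 h (n + 1)
          surj := syzF_surj k d ε hε h0 h (n + 1) }
  obtain ⟨a, ha, hcls⟩ := exists_period (K := syzFD k d ε hP)
    (P := fun n => toF k (P n) (hP n)) rfl hproj S D hD
  obtain ⟨b, rfl⟩ : ∃ b, a = b + 1 := ⟨a - 1, by omega⟩
  obtain ⟨Pp, Q, hPp, hQ, ⟨e0⟩⟩ := cls_eq.1 (hcls.trans one_eq)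
  have e : (syzK k d ε (b + 1) × Pp.X) ≃ₗ[A] (trivObj k A × Q.X) := e0
  refine ⟨b + 1, ha, ModuleCat.of A Q.X, ?_, ?_, ?_, ?_, hQ, finite_A Q, ?_,
    ModuleCat.of A Pp.X, hPp, finite_A Pp, ⟨e⟩⟩
  · exact ModuleCat.ofHom (Y := trivObj k A) (LinearMap.fst A (trivObj k A) Q.X ∘ₗ
      e.toLinearMap ∘ₗ LinearMap.inl A (syzK k d ε (b + 1)) Pp.X)
  · exact ModuleCat.ofHom (X := trivObj k A) (LinearMap.fst A (syzK k d ε (b + 1)) Pp.X ∘ₗ
      e.symm.toLinearMap ∘ₗ LinearMap.inl A (trivObj k A) Q.X)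
  · exact ModuleCat.ofHom (LinearMap.snd A (trivObj k A) Q.X ∘ₗ e.toLinearMap ∘ₗ
      LinearMap.inl A (syzK k d ε (b + 1)) Pp.X)
  · exact ModuleCat.ofHom (-(LinearMap.fst A (syzK k d ε (b + 1)) Pp.X ∘ₗ e.symm.toLinearMap ∘ₗ
      LinearMap.inr A (trivObj k A) Q.X))
  · refine ModuleCat.hom_ext (LinearMap.ext fun x => ?_)
    change (e.symm ((e (x, 0)).1, 0)).1 = x + -(e.symm (0, (e (x, 0)).2)).1
    have h1 : e.symm ((e (x, 0)).1, 0) + e.symm (0, (e (x, 0)).2) = (x, 0) := by
      rw [← map_add]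
      have h2 : (((e (x, 0)).1, 0) : trivObj k A × Q.X) + (0, (e (x, 0)).2) = e (x, 0) := by
        ext <;> simp
      rw [h2, LinearEquiv.symm_apply_apply]
    have h3 := congrArg Prod.fst h1
    exact eq_add_neg_of_add_eq h3

theorem tens_projective (M X : ModuleCat.{u} A) (hM : Module.Finite A M)
    (hX : Module.Projective A X) (hX' : Module.Finite A X) :
    Projective ((tensFunctor k M).obj X) := by
  have : Module.Finite k M := Module.Finite.trans A M
  have h1 : Module.Projective A (Ten k A X M) := proj_ten_left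
  exact (IsProjective.iff_projective (Ten k A X M)).1 h1

include h0 h in
theorem syzK_succ (n : ℕ) :
    Nonempty (syzK k d ε (n + 1) ≃ₗ[A] LinearMap.range (d n).hom) := by
  match n with
  | 0 =>
    exact ⟨LinearEquiv.ofEq (LinearMap.ker ε.hom) (LinearMap.range (d 0).hom)
      (LinearMap.exact_iff.1 h0)⟩
  | n + 1 =>
    exact ⟨LinearEquiv.ofEq (LinearMap.ker (d n).hom) (LinearMap.range (d (n + 1)).hom)
      (LinearMap.exact_iff.1 (h n))⟩

include hε h0 h in
/-- There is a class of positive degree which acts surjectively in positive degrees. -/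
theorem exists_class (hP : ∀ n, Module.Finite A (P n)) (hproj : ∀ n, Module.Projective A (P n))
    (D : ℕ) (hD : ∀ N, ∃ n, N ≤ n ∧ Module.finrank k (P n) ≤ D) :
    ∃ b, (∃ (Q Q' : ModuleCat.{u} A), (Module.Projective A Q ∧ Module.Finite A Q) ∧
        (Module.Projective A Q' ∧ Module.Finite A Q') ∧
        Nonempty ((LinearMap.range (d b).hom × Q) ≃ₗ[A] (trivObj k A × Q'))) ∧
      ∃ x : Ext (trivObj k A) (trivObj k A) (b + 1), SurjFrom 1 x ∧
      ∀ M : ModuleCat.{u} A, Module.Finite A M → SurjFrom 1 (rst k M x) := by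
  obtain ⟨a, ha, Q, u, v, p, q, hQ, hQ', huv, Q1, hQ1, hQ1', ⟨e⟩⟩ :=
    exists_syz_period k d ε hε h0 h hP hproj D hD
  obtain ⟨b, rfl⟩ : ∃ b, a = b + 1 := ⟨a - 1, by omega⟩
  obtain ⟨e1⟩ := syzK_succ k d ε h0 h b
  refine ⟨b, ⟨Q1, Q, ⟨hQ1, hQ1'⟩, ⟨hQ, hQ'⟩,
    ⟨(e1.symm.prodCongr (LinearEquiv.refl A Q1)) ≪≫ₗ e⟩⟩, ?_⟩
  obtain ⟨x, hx1, hx2⟩ := exists_x (syzK k d ε) P (syzI k d ε) (syzF k d ε h0 h)
    (syz_w k d ε h0 h) (syz_shortExact k d ε hε h0 h)
    (fun n => (P n).projective_of_categoryTheory_projective) (b + 1) u v p q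
    (Q.projective_of_categoryTheory_projective) huv
  refine ⟨x, hx1, fun M hM => ?_⟩
  have h3 := hx2 (tensFunctor k M) (fun n => tens_projective k M (P n) hM (hproj n) (hP n))
    (tens_projective k M Q hM hQ hQ')
  have h4 : SurjFrom 1 (Ext.mk₀ (inv (unitMap k M))) :=
    (surjFrom_iso (asIso (unitMap k M)).symm).mono (by omega)
  have h5 : SurjFrom 1 (Ext.mk₀ (unitMap k M)) :=
    (surjFrom_iso (asIso (unitMap k M))).mono (by omega)
  exact h5.comp (zero_add (b + 1)) (h3.comp (add_zero (b + 1)) h4)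

end

/-- **Bounded implies periodic** for Hopf algebras of complexity at most one. -/
theorem periodic (k : Type u) [Field k] (A : Type u) [Ring A] [HopfAlgebra k A]
    [Module.Finite k A]
    (P : ProjectiveResolution (trivObj k A)) (hP : ∀ n, Module.Finite A (P.complex.X n)) (D : ℕ)
    (hD : ∀ N, ∃ n, N ≤ n ∧ Module.finrank k (P.complex.X n) ≤ D) :
    ∃ (n : ℕ) (Q Q' : ModuleCat.{u} A), (Module.Projective A Q ∧ Module.Finite A Q) ∧
      (Module.Projective A Q' ∧ Module.Finite A Q') ∧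
      Nonempty ((LinearMap.range (P.complex.d (n + 1) n).hom × Q) ≃ₗ[A] (trivObj k A × Q')) := by
  have hepi : Epi (P.π.f 0) := inferInstance
  obtain ⟨b, ⟨Q, Q', hQ⟩, x, hx, hxM⟩ := exists_class k (P := fun n => P.complex.X n)
    (fun n => P.complex.d (n + 1) n) (P.π.f 0)
    ((ModuleCat.epi_iff_surjective (P.π.f 0)).1 hepi)
    ((ShortComplex.ShortExact.moduleCat_exact_iff_function_exact _).1 P.exact₀)
    (fun n => (ShortComplex.ShortExact.moduleCat_exact_iff_function_exact _).1 (P.exact_succ n))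
    hP (fun n => (P.complex.X n).projective_of_module_projective) D hD
  exact ⟨b, Q, Q', hQ⟩

/-- **Finite generation of cohomology** for Hopf algebras of complexity at most one. -/
theorem main (k : Type u) [Field k] (A : Type u) [Ring A] [HopfAlgebra k A] [Module.Finite k A]
    (P : ProjectiveResolution (trivObj k A)) (hP : ∀ n, Module.Finite A (P.complex.X n)) (D : ℕ)
    (hD : ∀ N, ∃ n, N ≤ n ∧ Module.finrank k (P.complex.X n) ≤ D) :
    Algebra.FiniteType k (⨁ n, EndExt (trivObj k A) n) ∧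
    ∀ M N : ModuleCat.{u} A, Module.Finite A M → Module.Finite A N →
      Module.Finite (⨁ n, EndExt (trivObj k A) n) (⨁ n, ActExt M N n) := by
  have hepi : Epi (P.π.f 0) := inferInstance
  obtain ⟨b, -, x, hx, hxM⟩ := exists_class k (P := fun n => P.complex.X n)
    (fun n => P.complex.d (n + 1) n) (P.π.f 0)
    ((ModuleCat.epi_iff_surjective (P.π.f 0)).1 hepi)
    ((ShortComplex.ShortExact.moduleCat_exact_iff_function_exact _).1 P.exact₀)
    (fun n => (ShortComplex.ShortExact.moduleCat_exact_iff_function_exact _).1 (P.exact_succ n))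
    hP (fun n => (P.complex.X n).projective_of_module_projective) D hD
  exact ⟨finiteType_of_surj (trivObj k A) (fun n => finite_ext k _ _ n) (b + 1) (by omega) x hx,
    fun M N hM hN => finite_of_surj k M N (fun n => finite_ext k M N n) (b + 1) (by omega) x
      (hxM M hM)⟩

end Pool.Agent.Helper59.FG
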