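import Pool.Agent.Helper59.FG.Mods

/-!
# The stable monoid
-/

set_option linter.unusedSectionVars false
set_option autoImplicit false

open scoped TensorProduct

namespace Pool.Agent.Helper59.FG

universe u

/-- Finite dimensional `A`-modules. -/
structure FDM (k : Type u) [Field k] (A : Type u) [Ring A] [Algebra k A] where
  X : Type u
  [iG : AddCommGroup X]
  [iK : Module k X]
  [iA : Module A X]
  [iT : IsScalarTower k A X]
  [iF : Module.Finite k X]

attribute [instance] FDM.iG FDM.iK FDM.iA FDM.iT FDM.iF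

section

variable {k : Type u} [Field k] {A : Type u} [Ring A] [Algebra k A]

/-- Stable equivalence: isomorphism after adding finite dimensional projective modules. -/
def StEq (M N : FDM k A) : Prop :=
  ∃ P Q : FDM k A, Module.Projective A P.X ∧ Module.Projective A Q.X ∧
    Nonempty ((M.X × P.X) ≃ₗ[A] (N.X × Q.X))

/-- The zero module. -/
def FDM.zero : FDM k A := ⟨PUnit.{u+1}⟩

theorem FDM.zero_proj : Module.Projective A (FDM.zero : FDM k A).X := by
  have e : (Fin 0 → A) ≃ₗ[A] (FDM.zero : FDM k A).X :=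
    { toFun := fun _ => PUnit.unit
      map_add' := fun _ _ => rfl
      map_smul' := fun _ _ => rfl
      invFun := fun _ => 0
      left_inv := fun _ => Subsingleton.elim _ _
      right_inv := fun _ => rfl }
  exact Module.Projective.of_equiv e

/-- The direct product. -/
def FDM.prod (M N : FDM k A) : FDM k A := ⟨M.X × N.X⟩

theorem StEq.of_equiv {M N : FDM k A} (e : M.X ≃ₗ[A] N.X) : StEq M N :=
  ⟨FDM.zero, FDM.zero, FDM.zero_proj, FDM.zero_proj, ⟨e.prodCongr (LinearEquiv.refl A _)⟩⟩

theorem StEq.refl (M : FDM k A) : StEq M M := StEq.of_equiv (LinearEquiv.refl A _)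

theorem StEq.symm {M N : FDM k A} (h : StEq M N) : StEq N M := by
  obtain ⟨P, Q, hP, hQ, ⟨e⟩⟩ := h
  exact ⟨Q, P, hQ, hP, ⟨e.symm⟩⟩

theorem StEq.trans {M N L : FDM k A} (h : StEq M N) (h' : StEq N L) : StEq M L := by
  obtain ⟨P, Q, hP, hQ, ⟨e⟩⟩ := h
  obtain ⟨P', Q', hP', hQ', ⟨e'⟩⟩ := h'
  refine ⟨P.prod P', Q'.prod Q, ?_, ?_, ⟨?_⟩⟩
  · change Module.Projective A (P.X × P'.X)
    infer_instance
  · change Module.Projective A (Q'.X × Q.X)
    infer_instance
  · exact (LinearEquiv.prodAssoc A M.X P.X P'.X).symm ≪≫ₗ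
      (e.prodCongr (LinearEquiv.refl A P'.X)) ≪≫ₗ LinearEquiv.prodAssoc A N.X Q.X P'.X ≪≫ₗ
      ((LinearEquiv.refl A N.X).prodCongr (LinearEquiv.prodComm A Q.X P'.X)) ≪≫ₗ
      (LinearEquiv.prodAssoc A N.X P'.X Q.X).symm ≪≫ₗ
      (e'.prodCongr (LinearEquiv.refl A Q.X)) ≪≫ₗ LinearEquiv.prodAssoc A L.X Q'.X Q.X

/-- Stable equivalence as a setoid. -/
def stSetoid (k : Type u) [Field k] (A : Type u) [Ring A] [Algebra k A] : Setoid (FDM k A) where
  r := StEq
  iseqv := ⟨StEq.refl, StEq.symm, StEq.trans⟩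

end

section Hopf

variable (k : Type u) [Field k] (A : Type u) [Ring A] [HopfAlgebra k A] [Module.Finite k A]

/-- Tensor product of finite dimensional modules. -/
noncomputable def FDM.ten {k : Type u} [Field k] {A : Type u} [Ring A] [HopfAlgebra k A]
    (M N : FDM k A) : FDM k A := ⟨Ten k A M.X N.X⟩

instance : Module.Finite k (Triv k A) := inferInstanceAs (Module.Finite k k)

/-- The trivial module. -/
noncomputable def FDM.triv : FDM k A := ⟨Triv k A⟩

/-- The stable monoid. -/
def StMon : Type (u + 1) := Quotient (stSetoid k A)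

variable {k A}

/-- The class of a module in the stable monoid. -/
def cls (M : FDM k A) : StMon k A := Quotient.mk (stSetoid k A) M

theorem cls_eq {M N : FDM k A} : cls M = cls N ↔ StEq M N := Quotient.eq (r := stSetoid k A)

omit [Module.Finite k A] in
theorem finite_A (M : FDM k A) : Module.Finite A M.X :=
  Module.Finite.of_restrictScalars_finite k A M.X

theorem StEq.ten {M M' N N' : FDM k A} (h : StEq M M') (h' : StEq N N') :
    StEq (M.ten N) (M'.ten N') := by
  have h1 : StEq (M.ten N) (M'.ten N) := by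
    obtain ⟨P, Q, hP, hQ, ⟨e⟩⟩ := h
    have := finite_A P
    have := finite_A Q
    exact ⟨P.ten N, Q.ten N, proj_ten_left, proj_ten_left,
      ⟨Ten.prodLeft.symm ≪≫ₗ Ten.congr e (LinearEquiv.refl A N.X) ≪≫ₗ Ten.prodLeft⟩⟩
  have h2 : StEq (M'.ten N) (M'.ten N') := by
    obtain ⟨P, Q, hP, hQ, ⟨e⟩⟩ := h'
    have := finite_A P
    have := finite_A Q
    exact ⟨M'.ten P, M'.ten Q, proj_ten_right, proj_ten_right,
      ⟨Ten.prodRight.symm ≪≫ₗ Ten.congr (LinearEquiv.refl A M'.X) e ≪≫ₗ Ten.prodRight⟩⟩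
  exact h1.trans h2

noncomputable instance : Monoid (StMon k A) where
  mul := Quotient.map₂ FDM.ten (fun _ _ h _ _ h' => StEq.ten h h')
  one := cls (FDM.triv k A)
  mul_assoc := by
    rintro ⟨M⟩ ⟨N⟩ ⟨L⟩
    exact Quotient.sound (s := stSetoid k A)
      (StEq.of_equiv (M := (M.ten N).ten L) (N := M.ten (N.ten L)) Ten.assoc)
  one_mul := by
    rintro ⟨M⟩
    exact Quotient.sound (s := stSetoid k A)
      (StEq.of_equiv (M := (FDM.triv k A).ten M) (N := M) (Ten.lid (k := k)))
  mul_one := by
    rintro ⟨M⟩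
    exact Quotient.sound (s := stSetoid k A)
      (StEq.of_equiv (M := M.ten (FDM.triv k A)) (N := M) (Ten.rid (k := k)))

theorem cls_mul (M N : FDM k A) : cls M * cls N = cls (M.ten N) := rfl

theorem one_eq : (1 : StMon k A) = cls (FDM.triv k A) := rfl

/-- Projective modules have the class of zero. -/
theorem cls_proj {P Q : FDM k A} (hP : Module.Projective A P.X) (hQ : Module.Projective A Q.X) :
    cls P = cls Q :=
  cls_eq.2 ⟨Q, P, hQ, hP, ⟨LinearEquiv.prodComm A P.X Q.X⟩⟩

theorem cls_prod_proj (M P : FDM k A) (hP : Module.Projective A P.X) : cls (M.prod P) = cls M :=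
  cls_eq.2 ⟨FDM.zero, P, FDM.zero_proj, hP, ⟨by
    exact { toFun := fun z => z.1
            map_add' := fun _ _ => rfl
            map_smul' := fun _ _ => rfl
            invFun := fun z => (z, PUnit.unit)
            left_inv := fun _ => rfl
            right_inv := fun _ => rfl }⟩⟩

theorem cls_equiv {M N : FDM k A} (e : M.X ≃ₗ[A] N.X) : cls M = cls N :=
  cls_eq.2 (StEq.of_equiv e)

/-- If the trivial module is projective then the stable monoid is trivial. -/
theorem subsingleton_of_triv_proj (h : Module.Projective A (Triv k A)) (x y : StMon k A) :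
    x = y := by
  have key : ∀ M : FDM k A, Module.Projective A M.X := by
    intro M
    have : Module.Finite A (Triv k A) := Module.Finite.of_restrictScalars_finite k A _
    have h1 : Module.Projective A (Ten k A (Triv k A) M.X) := proj_ten_left
    exact Module.Projective.of_equiv (Ten.lid (k := k))
  obtain ⟨M⟩ := x
  obtain ⟨N⟩ := y
  exact cls_proj (key M) (key N)

end Hopf

end Pool.Agent.Helper59.FG
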