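import Mathlib

/-!
# Tensor products of modules over a bialgebra
-/

set_option linter.unusedSectionVars false

open scoped TensorProduct

namespace Pool.Agent.Helper59.FG

universe u

/-- The tensor product over `k` of two `A`-modules (type synonym which carries the action of `A`
through the comultiplication: if `Δ a = ∑ a₁ ⊗ a₂` then `a • (x ⊗ y) = ∑ (a₁ • x) ⊗ (a₂ • y)`). -/
def Ten (k : Type u) [Field k] (_A : Type u) (X Y : Type u) [AddCommGroup X] [Module k X]
    [AddCommGroup Y] [Module k Y] : Type u :=
  X ⊗[k] Y

/-- The trivial module (type synonym of `k`): `A` acts on `k` through the counit. -/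
def Triv (k : Type u) (_A : Type u) : Type u := k

section Defs

variable (k : Type u) [Field k] (A : Type u) [Ring A] [Bialgebra k A]
variable (X Y : Type u) [AddCommGroup X] [Module k X] [Module A X]
    [IsScalarTower k A X] [AddCommGroup Y] [Module k Y] [Module A Y] [IsScalarTower k A Y]

/-- The action of `A ⊗ A` on `X ⊗ Y`. -/
noncomputable def act2 :
    A ⊗[k] A →ₐ[k] Module.End k (X ⊗[k] Y) :=
  (Module.endTensorEndAlgHom (R := k) (S := k) (A := k) (M := X) (N := Y)).comp
    (Algebra.TensorProduct.map (Algebra.lsmul k k X) (Algebra.lsmul k k Y))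

/-- The action of `A` on `X ⊗ Y` through the comultiplication. -/
noncomputable def act : A →ₐ[k] Module.End k (X ⊗[k] Y) :=
  (act2 k A X Y).comp (Bialgebra.comulAlgHom k A)

@[simp] theorem act2_tmul (a b : A) (x : X) (y : Y) :
    act2 k A X Y (a ⊗ₜ b) (x ⊗ₜ y) = (a • x) ⊗ₜ (b • y) := by
  simp [act2, Module.endTensorEndAlgHom_apply]

theorem act_def (a : A) (z : X ⊗[k] Y) :
    act k A X Y a z = act2 k A X Y (Coalgebra.comul a) z := rfl

noncomputable instance Ten.instAddCommGroup : AddCommGroup (Ten k A X Y) :=
  inferInstanceAs (AddCommGroup (X ⊗[k] Y))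
noncomputable instance Ten.instModuleK : Module k (Ten k A X Y) :=
  inferInstanceAs (Module k (X ⊗[k] Y))

noncomputable instance Ten.instModule : Module A (Ten k A X Y) :=
  Module.compHom (X ⊗[k] Y) (act k A X Y).toRingHom

noncomputable instance Ten.instIsScalarTower : IsScalarTower k A (Ten k A X Y) where
  smul_assoc c a z := by
    change act k A X Y (c • a) z = c • act k A X Y a z
    rw [map_smul]; rfl

noncomputable instance Triv.instField : Field (Triv k A) := inferInstanceAs (Field k)
noncomputable instance Triv.instAddCommGroup : AddCommGroup (Triv k A) :=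
  inferInstanceAs (AddCommGroup k)
noncomputable instance Triv.instModuleK : Module k (Triv k A) :=
  inferInstanceAs (Module k k)

noncomputable instance Triv.instModule : Module A (Triv k A) :=
  Module.compHom k (Bialgebra.counitAlgHom k A).toRingHom

theorem Triv.smul_def (a : A) (z : Triv k A) :
    a • z = Coalgebra.counit (R := k) a • z := rfl

noncomputable instance Triv.instIsScalarTower : IsScalarTower k A (Triv k A) where
  smul_assoc c a z := by
    rw [Triv.smul_def, Triv.smul_def, map_smul, smul_eq_mul, mul_smul]

/-- The identity as a linear equivalence to the type synonym. -/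
noncomputable def toTen : X ⊗[k] Y ≃ₗ[k] Ten k A X Y := LinearEquiv.refl k (X ⊗[k] Y)

/-- The identity as a linear equivalence to the type synonym. -/
noncomputable def toTriv : k ≃ₗ[k] Triv k A := LinearEquiv.refl k k

variable {X Y}

/-- Pure tensors. -/
noncomputable def tm (x : X) (y : Y) : Ten k A X Y := toTen k A X Y (x ⊗ₜ y)

theorem Ten.smul_toTen (a : A) (z : X ⊗[k] Y) :
    a • toTen k A X Y z = toTen k A X Y (act2 k A X Y (Coalgebra.comul a) z) := rfl

theorem Triv.smul_toTriv (a : A) (c : k) :
    a • toTriv k A c = toTriv k A (Coalgebra.counit (R := k) a * c) := rfl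

variable (X) in
theorem Triv.smul_eq (a : A) (c : Triv k A) :
    a • c = Coalgebra.counit (R := k) a • c := rfl

/-- The orbit map `a ↦ a • x`. -/
def sp (x : X) : A →ₗ[k] X := (LinearMap.toSpanSingleton A X x).restrictScalars k

@[simp] theorem sp_apply (x : X) (a : A) : sp k A x a = a • x := rfl

end Defs

/-- A `k`-linear map between `A`-modules that commutes with `A`. -/
def mkLin {k A X Y : Type u} [Field k] [Ring A] [AddCommGroup X] [Module k X] [Module A X]
    [AddCommGroup Y] [Module k Y] [Module A Y]
    (f : X →ₗ[k] Y) (h : ∀ (a : A) (x : X), f (a • x) = a • f x) : X →ₗ[A] Y where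
  toFun := f
  map_add' := f.map_add
  map_smul' := h

@[simp] theorem mkLin_apply {k A X Y : Type u} [Field k] [Ring A] [AddCommGroup X] [Module k X]
    [Module A X] [AddCommGroup Y] [Module k Y] [Module A Y]
    (f : X →ₗ[k] Y) (h : ∀ (a : A) (x : X), f (a • x) = a • f x) (x : X) :
    mkLin (A := A) f h x = f x := rfl

/-- A `k`-linear equivalence commuting with `A`. -/
def mkEquiv {k A X Y : Type u} [Field k] [Ring A] [AddCommGroup X] [Module k X] [Module A X]
    [AddCommGroup Y] [Module k Y] [Module A Y]
    (f : X ≃ₗ[k] Y) (h : ∀ (a : A) (x : X), f (a • x) = a • f x) : X ≃ₗ[A] Y :=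
  { mkLin (A := A) f.toLinearMap h with
    invFun := f.symm
    left_inv := f.left_inv
    right_inv := f.right_inv }

@[simp] theorem mkEquiv_apply {k A X Y : Type u} [Field k] [Ring A] [AddCommGroup X] [Module k X]
    [Module A X] [AddCommGroup Y] [Module k Y] [Module A Y]
    (f : X ≃ₗ[k] Y) (h : ∀ (a : A) (x : X), f (a • x) = a • f x) (x : X) :
    mkEquiv (A := A) f h x = f x := rfl

namespace Ten

variable {k : Type u} [Field k] {A : Type u} [Ring A] [Bialgebra k A]
variable {X Y Z X' Y' W : Type u} [AddCommGroup X] [Module k X] [Module A X]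
    [IsScalarTower k A X] [AddCommGroup Y] [Module k Y] [Module A Y] [IsScalarTower k A Y]
    [AddCommGroup Z] [Module k Z] [Module A Z] [IsScalarTower k A Z]
    [AddCommGroup X'] [Module k X'] [Module A X'] [IsScalarTower k A X']
    [AddCommGroup Y'] [Module k Y'] [Module A Y'] [IsScalarTower k A Y']
    [AddCommGroup W] [Module k W]

theorem ext {f g : Ten k A X Y →ₗ[k] W} (h : ∀ x y, f (tm k A x y) = g (tm k A x y)) : f = g := by
  have : f ∘ₗ (toTen k A X Y).toLinearMap = g ∘ₗ (toTen k A X Y).toLinearMap :=
    TensorProduct.ext' h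
  exact this

theorem smul_tm (a : A) (x : X) (y : Y) :
    a • tm k A x y =
      toTen k A X Y (TensorProduct.map (sp k A x) (sp k A y) (Coalgebra.comul a)) := by
  unfold tm
  rw [smul_toTen]
  congr 1
  induction Coalgebra.comul (R := k) a using TensorProduct.induction_on with
  | zero => simp
  | add s t hs ht => simp [hs, ht]
  | tmul s t => simp

theorem sp_tm (x : X) (y : Y) :
    sp k A (tm k A x y) =
      (toTen k A X Y).toLinearMap ∘ₗ TensorProduct.map (sp k A x) (sp k A y) ∘ₗ
        Coalgebra.comul := by
  ext a
  exact smul_tm a x y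

/-- Checking `A`-linearity of a `k`-linear map on a tensor product on pure tensors. -/
theorem lin_of (f : Ten k A X Y →ₗ[k] Z)
    (h : ∀ (a : A) (x : X) (y : Y), f (a • tm k A x y) = a • f (tm k A x y)) (a : A)
    (z : Ten k A X Y) : f (a • z) = a • f z := by
  have : f ∘ₗ (Algebra.lsmul k k (Ten k A X Y) a) = (Algebra.lsmul k k Z a) ∘ₗ f :=
    ext (fun x y => h a x y)
  exact congr($this z)

/-- The tensor product of two `k`-linear maps. -/
noncomputable def mapk (f : X →ₗ[k] X') (g : Y →ₗ[k] Y') : Ten k A X Y →ₗ[k] Ten k A X' Y' :=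
  (toTen k A X' Y').toLinearMap ∘ₗ TensorProduct.map f g ∘ₗ (toTen k A X Y).symm.toLinearMap

@[simp] theorem mapk_tm (f : X →ₗ[k] X') (g : Y →ₗ[k] Y') (x : X) (y : Y) :
    mapk (A := A) f g (tm k A x y) = tm k A (f x) (g y) := rfl

/-- The tensor product of two `A`-linear maps. -/
noncomputable def map (f : X →ₗ[A] X') (g : Y →ₗ[A] Y') : Ten k A X Y →ₗ[A] Ten k A X' Y' :=
  mkLin (mapk (f.restrictScalars k) (g.restrictScalars k)) (lin_of _ (fun a x y => by
    rw [mapk_tm, smul_tm, smul_tm]
    have h1 : sp k A ((f.restrictScalars k) x) = (f.restrictScalars k) ∘ₗ sp k A x := by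
      ext b; simp
    have h2 : sp k A ((g.restrictScalars k) y) = (g.restrictScalars k) ∘ₗ sp k A y := by
      ext b; simp
    rw [h1, h2, TensorProduct.map_comp]
    rfl))

theorem map_eq (f : X →ₗ[A] X') (g : Y →ₗ[A] Y') (z : Ten k A X Y) :
    map (k := k) f g z = mapk (f.restrictScalars k) (g.restrictScalars k) z := rfl

@[simp] theorem map_tm (f : X →ₗ[A] X') (g : Y →ₗ[A] Y') (x : X) (y : Y) :
    map f g (tm k A x y) = tm k A (f x) (g y) := rfl

theorem tm_add (x : X) (y y' : Y) : tm k A x (y + y') = tm k A x y + tm k A x y' := by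
  simp [tm, TensorProduct.tmul_add]

theorem add_tm (x x' : X) (y : Y) : tm k A (x + x') y = tm k A x y + tm k A x' y := by
  simp [tm, TensorProduct.add_tmul]

theorem smul_tm' (c : k) (x : X) (y : Y) : tm k A (c • x) y = c • tm k A x y := by
  rw [tm, tm, ← TensorProduct.smul_tmul', map_smul]

theorem tm_smul (c : k) (x : X) (y : Y) : tm k A x (c • y) = c • tm k A x y := by
  simp [tm]

theorem tm_zero (x : X) : tm k A x (0 : Y) = 0 := by simp [tm]

theorem zero_tm (y : Y) : tm k A (0 : X) y = 0 := by simp [tm]

theorem ext3 {f g : Ten k A (Ten k A X Y) Z →ₗ[k] W}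
    (h : ∀ x y z, f (tm k A (tm k A x y) z) = g (tm k A (tm k A x y) z)) : f = g := by
  refine ext fun w z => ?_
  have : (f ∘ₗ ((toTen k A (Ten k A X Y) Z).toLinearMap ∘ₗ
      (TensorProduct.mk k (Ten k A X Y) Z).flip z)) =
      (g ∘ₗ ((toTen k A (Ten k A X Y) Z).toLinearMap ∘ₗ
      (TensorProduct.mk k (Ten k A X Y) Z).flip z)) := ext fun x y => h x y z
  exact congr($this w)

/-- The associator as a `k`-linear map. -/
noncomputable def assocK : Ten k A (Ten k A X Y) Z ≃ₗ[k] Ten k A X (Ten k A Y Z) :=
  (toTen k A (Ten k A X Y) Z).symm ≪≫ₗ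
    TensorProduct.congr (toTen k A X Y).symm (LinearEquiv.refl k Z) ≪≫ₗ
    TensorProduct.assoc k X Y Z ≪≫ₗ
    TensorProduct.congr (LinearEquiv.refl k X) (toTen k A Y Z) ≪≫ₗ
    toTen k A X (Ten k A Y Z)

@[simp] theorem assocK_tm (x : X) (y : Y) (z : Z) :
    assocK (tm k A (tm k A x y) z) = tm k A x (tm k A y z) := rfl

theorem assocK_smul (a : A) (w : Ten k A (Ten k A X Y) Z) :
    assocK (a • w) = a • assocK w := by
  have : (assocK (k := k) (A := A) (X := X) (Y := Y) (Z := Z)).toLinearMap ∘ₗ
      (Algebra.lsmul k k (Ten k A (Ten k A X Y) Z) a) =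
      (Algebra.lsmul k k (Ten k A X (Ten k A Y Z)) a) ∘ₗ
        (assocK (k := k) (A := A) (X := X) (Y := Y) (Z := Z)).toLinearMap := by
    refine ext3 fun x y z => ?_
    change assocK (a • tm k A (tm k A x y) z) = a • tm k A x (tm k A y z)
    rw [smul_tm, smul_tm, sp_tm, sp_tm]
    have h1 : TensorProduct.map ((toTen k A X Y).toLinearMap ∘ₗ
        TensorProduct.map (sp k A x) (sp k A y) ∘ₗ Coalgebra.comul) (sp k A z)
        (Coalgebra.comul (R := k) a) =
        TensorProduct.map ((toTen k A X Y).toLinearMap ∘ₗ
          TensorProduct.map (sp k A x) (sp k A y)) (sp k A z)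
          (Coalgebra.comul.rTensor A (Coalgebra.comul (R := k) a)) := by
      rw [LinearMap.map_rTensor]; rfl
    have h2 : TensorProduct.map (sp k A x) ((toTen k A Y Z).toLinearMap ∘ₗ
        TensorProduct.map (sp k A y) (sp k A z) ∘ₗ Coalgebra.comul)
        (Coalgebra.comul (R := k) a) =
        TensorProduct.map (sp k A x) ((toTen k A Y Z).toLinearMap ∘ₗ
          TensorProduct.map (sp k A y) (sp k A z))
          (Coalgebra.comul.lTensor A (Coalgebra.comul (R := k) a)) := by
      rw [LinearMap.map_lTensor]; rfl
    rw [h1, h2, ← Coalgebra.coassoc_apply]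
    have h3 : ∀ t : (A ⊗[k] A) ⊗[k] A,
        assocK ((toTen k A (Ten k A X Y) Z) (TensorProduct.map ((toTen k A X Y).toLinearMap ∘ₗ
          TensorProduct.map (sp k A x) (sp k A y)) (sp k A z) t)) =
        toTen k A X (Ten k A Y Z) (TensorProduct.map (sp k A x) ((toTen k A Y Z).toLinearMap ∘ₗ
          TensorProduct.map (sp k A y) (sp k A z)) (TensorProduct.assoc k A A A t)) := by
      intro t
      induction t using TensorProduct.induction_on with
      | zero => simp
      | add s t hs ht => simp only [map_add, hs, ht]
      | tmul s c =>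
        induction s using TensorProduct.induction_on with
        | zero => simp
        | add s t hs ht => simp only [TensorProduct.add_tmul, map_add, hs, ht]
        | tmul b b' => rfl
    exact h3 _
  exact congr($this w)

/-- The associator. -/
noncomputable def assoc : Ten k A (Ten k A X Y) Z ≃ₗ[A] Ten k A X (Ten k A Y Z) :=
  mkEquiv assocK assocK_smul

theorem sp_triv (c : Triv k A) :
    sp k A c = ((toTriv k A).symm c) • ((toTriv k A).toLinearMap ∘ₗ Coalgebra.counit) := by
  ext b
  simp only [sp_apply, LinearMap.smul_apply, LinearMap.comp_apply]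
  rw [Triv.smul_eq]
  change Coalgebra.counit (R := k) b * (toTriv k A).symm c =
    (toTriv k A).symm c * Coalgebra.counit (R := k) b
  rw [mul_comm]

/-- The left unit isomorphism as a `k`-linear map. -/
noncomputable def lidK : Ten k A (Triv k A) X ≃ₗ[k] X :=
  (toTen k A (Triv k A) X).symm ≪≫ₗ
    TensorProduct.congr (toTriv k A).symm (LinearEquiv.refl k X) ≪≫ₗ TensorProduct.lid k X

@[simp] theorem lidK_tm (c : Triv k A) (x : X) : lidK (tm k A c x) = ((toTriv k A).symm c) • x :=
  rfl

theorem lidK_smul (a : A) (w : Ten k A (Triv k A) X) : lidK (a • w) = a • lidK w := by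
  refine lin_of (lidK (k := k) (A := A) (X := X)).toLinearMap ?_ a w
  intro a c x
  rw [smul_tm]
  have h2 : TensorProduct.map (sp k A c) (sp k A x) (Coalgebra.comul (R := k) a) =
      TensorProduct.map (((toTriv k A).symm c) • (toTriv k A).toLinearMap) (sp k A x)
        (Coalgebra.counit.rTensor A (Coalgebra.comul (R := k) a)) := by
    rw [sp_triv, LinearMap.map_rTensor, LinearMap.smul_comp]
  rw [h2, Coalgebra.rTensor_counit_comul]
  change lidK (tm k A (((toTriv k A).symm c) • (toTriv k A 1)) (a • x)) = a • lidK (tm k A c x)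
  rw [lidK_tm, lidK_tm, map_smul, LinearEquiv.symm_apply_apply, smul_eq_mul, mul_one,
    smul_comm]

/-- The left unit isomorphism. -/
noncomputable def lid : Ten k A (Triv k A) X ≃ₗ[A] X := mkEquiv lidK lidK_smul

/-- The right unit isomorphism as a `k`-linear map. -/
noncomputable def ridK : Ten k A X (Triv k A) ≃ₗ[k] X :=
  (toTen k A X (Triv k A)).symm ≪≫ₗ
    TensorProduct.congr (LinearEquiv.refl k X) (toTriv k A).symm ≪≫ₗ TensorProduct.rid k X

@[simp] theorem ridK_tm (c : Triv k A) (x : X) : ridK (tm k A x c) = ((toTriv k A).symm c) • x :=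
  rfl

theorem ridK_smul (a : A) (w : Ten k A X (Triv k A)) : ridK (a • w) = a • ridK w := by
  refine lin_of (ridK (k := k) (A := A) (X := X)).toLinearMap ?_ a w
  intro a x c
  rw [smul_tm]
  have h2 : TensorProduct.map (sp k A x) (sp k A c) (Coalgebra.comul (R := k) a) =
      TensorProduct.map (sp k A x) (((toTriv k A).symm c) • (toTriv k A).toLinearMap)
        (Coalgebra.counit.lTensor A (Coalgebra.comul (R := k) a)) := by
    rw [sp_triv, LinearMap.map_lTensor, LinearMap.smul_comp]
  rw [h2, Coalgebra.lTensor_counit_comul]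
  change ridK (tm k A (a • x) (((toTriv k A).symm c) • (toTriv k A 1))) = a • ridK (tm k A x c)
  rw [ridK_tm, ridK_tm, map_smul, LinearEquiv.symm_apply_apply, smul_eq_mul, mul_one,
    smul_comm]

/-- The right unit isomorphism. -/
noncomputable def rid : Ten k A X (Triv k A) ≃ₗ[A] X := mkEquiv ridK ridK_smul

/-- Functoriality for equivalences. -/
noncomputable def congr (f : X ≃ₗ[A] X') (g : Y ≃ₗ[A] Y') : Ten k A X Y ≃ₗ[A] Ten k A X' Y' :=
  LinearEquiv.ofLinearMap (map f.toLinearMap g.toLinearMap) (map f.symm.toLinearMap g.symm.toLinearMap)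
    (by
      have : (map (k := k) f.toLinearMap g.toLinearMap ∘ₗ
          map f.symm.toLinearMap g.symm.toLinearMap).restrictScalars k =
          LinearMap.id := ext fun x y => by simp
      exact LinearMap.ext fun z => congr($this z))
    (by
      have : (map (k := k) f.symm.toLinearMap g.symm.toLinearMap ∘ₗ
          map f.toLinearMap g.toLinearMap).restrictScalars k =
          LinearMap.id := ext fun x y => by simp
      exact LinearMap.ext fun z => congr($this z))

/-- Distributivity on the left. -/
noncomputable def prodLeft : Ten k A (X × X') Y ≃ₗ[A] Ten k A X Y × Ten k A X' Y :=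
  LinearEquiv.ofLinearMap
    ((map (LinearMap.fst A X X') LinearMap.id).prod (map (LinearMap.snd A X X') LinearMap.id))
    ((map (LinearMap.inl A X X') LinearMap.id).coprod (map (LinearMap.inr A X X') LinearMap.id))
    (by
      refine LinearMap.prod_ext ?_ ?_
      · have : ((((map (k := k) (LinearMap.fst A X X') LinearMap.id).prod
          (map (LinearMap.snd A X X') LinearMap.id)) ∘ₗ
          ((map (LinearMap.inl A X X') LinearMap.id).coprod
            (map (LinearMap.inr A X X') LinearMap.id)) ∘ₗ
          LinearMap.inl A (Ten k A X Y) (Ten k A X' Y)).restrictScalars k) =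
          (LinearMap.inl A (Ten k A X Y) (Ten k A X' Y)).restrictScalars k :=
          ext fun x y => by simp [zero_tm]
        exact LinearMap.ext fun z => congr($this z)
      · have : ((((map (k := k) (LinearMap.fst A X X') LinearMap.id).prod
          (map (LinearMap.snd A X X') LinearMap.id)) ∘ₗ
          ((map (LinearMap.inl A X X') LinearMap.id).coprod
            (map (LinearMap.inr A X X') LinearMap.id)) ∘ₗ
          LinearMap.inr A (Ten k A X Y) (Ten k A X' Y)).restrictScalars k) =
          (LinearMap.inr A (Ten k A X Y) (Ten k A X' Y)).restrictScalars k :=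
          ext fun x y => by simp [zero_tm]
        exact LinearMap.ext fun z => congr($this z))
    (by
      have : (((map (k := k) (LinearMap.inl A X X') (LinearMap.id : Y →ₗ[A] Y)).coprod
            (map (LinearMap.inr A X X') LinearMap.id)) ∘ₗ
          ((map (LinearMap.fst A X X') LinearMap.id).prod
          (map (LinearMap.snd A X X') LinearMap.id))).restrictScalars k = LinearMap.id :=
          ext fun x y => by simp [← add_tm]
      exact LinearMap.ext fun z => congr($this z))

/-- Distributivity on the right. -/
noncomputable def prodRight : Ten k A Y (X × X') ≃ₗ[A] Ten k A Y X × Ten k A Y X' :=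
  LinearEquiv.ofLinearMap
    ((map LinearMap.id (LinearMap.fst A X X')).prod (map LinearMap.id (LinearMap.snd A X X')))
    ((map LinearMap.id (LinearMap.inl A X X')).coprod (map LinearMap.id (LinearMap.inr A X X')))
    (by
      refine LinearMap.prod_ext ?_ ?_
      · have : ((((map (k := k) LinearMap.id (LinearMap.fst A X X')).prod
          (map LinearMap.id (LinearMap.snd A X X'))) ∘ₗ
          ((map LinearMap.id (LinearMap.inl A X X')).coprod
            (map LinearMap.id (LinearMap.inr A X X'))) ∘ₗ
          LinearMap.inl A (Ten k A Y X) (Ten k A Y X')).restrictScalars k) =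
          (LinearMap.inl A (Ten k A Y X) (Ten k A Y X')).restrictScalars k :=
          ext fun x y => by simp [tm_zero]
        exact LinearMap.ext fun z => congr($this z)
      · have : ((((map (k := k) LinearMap.id (LinearMap.fst A X X')).prod
          (map LinearMap.id (LinearMap.snd A X X'))) ∘ₗ
          ((map LinearMap.id (LinearMap.inl A X X')).coprod
            (map LinearMap.id (LinearMap.inr A X X'))) ∘ₗ
          LinearMap.inr A (Ten k A Y X) (Ten k A Y X')).restrictScalars k) =
          (LinearMap.inr A (Ten k A Y X) (Ten k A Y X')).restrictScalars k :=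
          ext fun x y => by simp [tm_zero]
        exact LinearMap.ext fun z => congr($this z))
    (by
      have : (((map (k := k) (LinearMap.id : Y →ₗ[A] Y) (LinearMap.inl A X X')).coprod
            (map LinearMap.id (LinearMap.inr A X X'))) ∘ₗ
          ((map LinearMap.id (LinearMap.fst A X X')).prod
          (map LinearMap.id (LinearMap.snd A X X')))).restrictScalars k = LinearMap.id :=
          ext fun x y => by simp [← tm_add]
      exact LinearMap.ext fun z => congr($this z))

theorem map_injective (f : X →ₗ[A] X') (g : Y →ₗ[A] Y') (hf : Function.Injective f)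
    (hg : Function.Injective g) : Function.Injective (map (k := k) f g) := by
  have := TensorProduct.map_injective_of_flat_flat (f.restrictScalars k) (g.restrictScalars k)
    hf hg
  exact this

theorem map_surjective (f : X →ₗ[A] X') (g : Y →ₗ[A] Y') (hf : Function.Surjective f)
    (hg : Function.Surjective g) : Function.Surjective (map (k := k) f g) := by
  have := TensorProduct.map_surjective (g := (f.restrictScalars k))
    (g' := (g.restrictScalars k)) hf hg
  exact this

theorem exact_left (f : X →ₗ[A] X') (g : X' →ₗ[A] Z) (h : Function.Exact f g)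
    (hg : Function.Surjective g) :
    Function.Exact (map (k := k) f (LinearMap.id : Y →ₗ[A] Y)) (map (k := k) g LinearMap.id) :=
  rTensor_exact Y (f := f.restrictScalars k) (g := g.restrictScalars k) h hg

theorem exact_right (f : X →ₗ[A] X') (g : X' →ₗ[A] Z) (h : Function.Exact f g)
    (hg : Function.Surjective g) :
    Function.Exact (map (k := k) (LinearMap.id : Y →ₗ[A] Y) f) (map (k := k) LinearMap.id g) :=
  lTensor_exact Y (f := f.restrictScalars k) (g := g.restrictScalars k) h hg

instance [Module.Finite k X] [Module.Finite k Y] : Module.Finite k (Ten k A X Y) :=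
  inferInstanceAs (Module.Finite k (X ⊗[k] Y))

theorem finrank_eq [Module.Finite k X] [Module.Finite k Y] :
    Module.finrank k (Ten k A X Y) = Module.finrank k X * Module.finrank k Y :=
  Module.finrank_tensorProduct (R := k) (S := k)

end Ten

end Pool.Agent.Helper59.FG
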